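import Pool.Agent.Lib.MP_ee1e43_pr.Path

/-!
# The paths of the process are right continuous with left limits
-/

namespace Pool.Agent.Lib.MP_ee1e43_pr

open MeasureTheory ProbabilityTheory Filter Topology
open scoped NNReal ENNReal

variable {b x : ℕ → ℝ}

lemma F_bound_all (hp : Par b x) {ω : Sp} (hω : ω ∈ G0 b x) (n : ℕ) :
    ∃ B : ℕ → ℝ, Summable B ∧ ∀ t : ℝ, 0 ≤ t → t < n → ∀ j, ‖F b x j t ω‖ ≤ B j := by
  obtain ⟨J, hJ⟩ := G0_bound hω n
  refine ⟨fun j => if j < J then
    x (j + 1) * ((cnt (ω (j, true)) n : ℝ) + cnt (ω (j, false)) n) + n else (1 / 2) ^ j, ?_, ?_⟩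
  · refine Summable.of_norm_bounded_eventually_nat (g := fun j => (1 / 2 : ℝ) ^ j)
      (summable_geometric_of_lt_one (by norm_num) (by norm_num)) ?_
    filter_upwards [eventually_ge_atTop J] with j hj
    rw [if_neg (not_lt.mpr hj), Real.norm_of_nonneg (by positivity)]
  · intro t ht0 htn j
    rw [Real.norm_eq_abs]
    by_cases hj : j < J
    · simp only [if_pos hj]
      unfold F S
      have h1 : (cnt (ω (j, true)) t : ℝ) ≤ cnt (ω (j, true)) n := by
        exact_mod_cast cnt_mono (ω (j, true)) htn.le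
      have h2 : (cnt (ω (j, false)) t : ℝ) ≤ cnt (ω (j, false)) n := by
        exact_mod_cast cnt_mono (ω (j, false)) htn.le
      have h3 : (0:ℝ) ≤ cnt (ω (j, true)) t := Nat.cast_nonneg _
      have h4 : (0:ℝ) ≤ cnt (ω (j, false)) t := Nat.cast_nonneg _
      have h5 := hp.xpos (j + 1)
      have h6 : (b j - b (j + 1)) * t ≤ n := by
        have := hp.d1 j
        have := hp.d0 j
        nlinarith
      have h7 : 0 ≤ (b j - b (j + 1)) * t := mul_nonneg (hp.d0 j) ht0
      rw [abs_le]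
      constructor <;> nlinarith
    · simp only [if_neg hj]
      exact hJ j (not_lt.mp hj) t ht0 htn

lemma X_right (hp : Par b x) (ω : Sp) {t : ℝ} (ht : 0 ≤ t) :
    ContinuousWithinAt (fun t' => X b x t' ω) (Set.Ici t) t := by
  by_cases hω : ω ∈ G0 b x
  · unfold X
    simp only [if_pos hω]
    obtain ⟨n, hn⟩ := exists_nat_gt t
    obtain ⟨B, hB, hF⟩ := F_bound_all hp hω n
    apply ContinuousWithinAt.add (by fun_prop)
    apply tendsto_tsum_of_dominated_convergence hB (fun j => F_cont j t ω)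
    have : Set.Iio (n:ℝ) ∈ 𝓝[≥] t := mem_nhdsWithin_of_mem_nhds (Iio_mem_nhds hn)
    filter_upwards [this, self_mem_nhdsWithin] with t' h1 h2
    exact hF t' (ht.trans h2) h1
  · unfold X
    simp only [if_neg hω]
    exact continuousWithinAt_const

lemma F_left (j : ℕ) (t : ℝ) (ω : Sp) : ∃ l, Tendsto (fun t' => F b x j t' ω) (𝓝[<] t) (𝓝 l) := by
  have hm : ∀ c, Monotone (fun t' => (cnt (ω (j, c)) t' : ℝ)) := by
    intro c r1 r2 h12
    have := cnt_mono (ω (j, c)) h12
    simp only
    exact_mod_cast this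
  have h1 := (hm true).tendsto_nhdsLT t
  have h2 := (hm false).tendsto_nhdsLT t
  have h3 : Tendsto (fun t' : ℝ => (b j - b (j + 1)) * t') (𝓝[<] t)
      (𝓝 ((b j - b (j + 1)) * t)) := by
    have : Continuous (fun t' : ℝ => (b j - b (j + 1)) * t') := by fun_prop
    exact (this.tendsto t).mono_left nhdsWithin_le_nhds
  exact ⟨_, ((h1.sub h2).const_mul (x (j + 1))).sub h3⟩

lemma X_left (hp : Par b x) (ω : Sp) {t : ℝ} (ht : 0 < t) :
    ∃ l, Tendsto (fun t' => X b x t' ω) (𝓝[<] t) (𝓝 l) := by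
  by_cases hω : ω ∈ G0 b x
  · unfold X
    simp only [if_pos hω]
    obtain ⟨n, hn⟩ := exists_nat_gt t
    obtain ⟨B, hB, hF⟩ := F_bound_all hp hω n
    choose L hL using fun j => F_left (b := b) (x := x) j t ω
    refine ⟨b 0 * t + ∑' j, L j, ?_⟩
    apply Tendsto.add
    · have : Continuous (fun t' : ℝ => b 0 * t') := by fun_prop
      exact (this.tendsto t).mono_left nhdsWithin_le_nhds
    · apply tendsto_tsum_of_dominated_convergence hB hL
      have : Set.Ioi (0:ℝ) ∈ 𝓝[<] t := mem_nhdsWithin_of_mem_nhds (Ioi_mem_nhds ht)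
      filter_upwards [this, self_mem_nhdsWithin] with t' h1 h2
      exact hF t' (le_of_lt h1) (lt_trans h2 hn)
  · unfold X
    simp only [if_neg hω]
    exact ⟨0, tendsto_const_nhds⟩

lemma X_cadlag (hp : Par b x) (ω : Sp) : IsCadlag (fun t : ℝ≥0 => X b x t ω) := by
  intro t
  constructor
  · have h1 : Tendsto (fun t' => X b x t' ω) (𝓝[≥] (t : ℝ)) (𝓝 (X b x t ω)) :=
      X_right hp ω (NNReal.coe_nonneg t)
    have h2 : Tendsto (fun s : ℝ≥0 => (s : ℝ)) (𝓝[≥] t) (𝓝[≥] (t : ℝ)) := by
      apply tendsto_nhdsWithin_of_tendsto_nhds_of_eventually_within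
      · exact (NNReal.continuous_coe.tendsto t).mono_left nhdsWithin_le_nhds
      · filter_upwards [self_mem_nhdsWithin] with s hs
        exact_mod_cast hs
    exact h1.comp h2
  · rcases eq_or_lt_of_le (zero_le (a := t)) with h | h
    · refine ⟨0, ?_⟩
      rw [← h]
      have : Set.Iio (0 : ℝ≥0) = ∅ := by ext s; simp
      rw [this, nhdsWithin_empty]
      exact tendsto_bot
    · obtain ⟨l, hl⟩ := X_left hp ω (t := t) (by exact_mod_cast h)
      refine ⟨l, hl.comp ?_⟩
      apply tendsto_nhdsWithin_of_tendsto_nhds_of_eventually_within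
      · exact (NNReal.continuous_coe.tendsto t).mono_left nhdsWithin_le_nhds
      · filter_upwards [self_mem_nhdsWithin] with s hs
        exact_mod_cast hs

end Pool.Agent.Lib.MP_ee1e43_pr
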