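import Pool.Agent.Lib.MP_ee1e43_pr.Defs

/-!
# Poisson clocks
-/

namespace Pool.Agent.Lib.MP_ee1e43_pr

open MeasureTheory ProbabilityTheory Filter Topology
open scoped NNReal ENNReal

/-- integral of a product of functions of different coordinates -/
lemma integral_prod_infinitePi {ι : Type*} {Ω : ι → Type*} [∀ i, MeasurableSpace (Ω i)]
    (P : ∀ i, Measure (Ω i)) [∀ i, IsProbabilityMeasure (P i)] (s : Finset ι)
    (f : ∀ i, Ω i → ℂ) (hf : ∀ i, Measurable (f i)) :
    ∫ ω, ∏ i ∈ s, f i (ω i) ∂(Measure.infinitePi P) = ∏ i ∈ s, ∫ x, f i x ∂(P i) := by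
  have h1 : ∀ ω : ∀ i, Ω i, ∏ i ∈ s, f i (ω i) =
      (fun y : ∀ i : s, Ω i => ∏ i : s, f i (y i)) (s.restrict ω) := by
    intro ω
    rw [← Finset.prod_coe_sort]
    rfl
  simp_rw [h1]
  have h2 : Measurable (fun y : ∀ i : s, Ω i => ∏ i : s, f i (y i)) :=
    Finset.measurable_prod _ (fun i _ => (hf i).comp (measurable_pi_apply i))
  rw [integral_restrict_infinitePi (μ := P) h2.aestronglyMeasurable,
    integral_fintype_prod_eq_prod (fun i : s => f i),
    ← Finset.prod_coe_sort s (fun i => ∫ x, f i x ∂(P i))]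

/-- uniform distribution on `(0, 1]` -/
noncomputable def unif : Measure ℝ := volume.restrict (Set.Ioc 0 1)

instance : IsProbabilityMeasure unif := ⟨by simp [unif]⟩

/-- a block: the number of points in an interval of length `1` and their positions -/
abbrev Blk := ℕ × (ℕ → ℝ)

/-- the law of a block with rate `m` -/
noncomputable def blk (m : ℝ≥0) : Measure Blk :=
  (poissonMeasure m).prod (Measure.infinitePi (fun _ : ℕ => unif))

instance (m : ℝ≥0) : IsProbabilityMeasure (blk m) := by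
  unfold blk; infer_instance

/-- the law of a clock with rate `m` -/
noncomputable def clk (m : ℝ≥0) : Measure (ℕ → Blk) := Measure.infinitePi (fun _ : ℕ => blk m)

instance (m : ℝ≥0) : IsProbabilityMeasure (clk m) := by
  unfold clk; infer_instance

lemma measurable_blk {E : Type*} [MeasurableSpace E] {f : Blk → E}
    (h : ∀ n, Measurable (fun u => f (n, u))) : Measurable f :=
  measurable_from_prod_countable_right h

/-- functional of a block -/
noncomputable def bprod (φ : ℝ → ℂ) (B : Blk) : ℂ :=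
  ∏ j ∈ Finset.range B.1, φ (B.2 j)

lemma measurable_bprod {φ : ℝ → ℂ} (hφ : Measurable φ) : Measurable (bprod φ) := by
  apply measurable_blk
  intro k
  have : Measurable (fun u : ℕ → ℝ => ∏ j ∈ Finset.range k, φ (u j)) :=
    Finset.measurable_prod _ (fun j _ => hφ.comp (measurable_pi_apply j))
  exact this

lemma integral_bprod {φ : ℝ → ℂ} (hφ : Measurable φ) (h1 : ∀ x, ‖φ x‖ ≤ 1) (m : ℝ≥0) :
    ∫ B, bprod φ B ∂(blk m) =
      Complex.exp ((m : ℝ) * ∫ u in (0:ℝ)..1, (φ u - 1)) := by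
  have hint : Integrable (bprod φ) (blk m) := by
    refine Integrable.mono' (integrable_const (1 : ℝ)) (measurable_bprod hφ).aestronglyMeasurable
      (ae_of_all _ fun B => ?_)
    unfold bprod
    rw [norm_prod]
    exact Finset.prod_le_one (fun _ _ => norm_nonneg _) (fun _ _ => h1 _)
  unfold blk at hint ⊢
  rw [integral_prod _ hint]
  have h2 : ∀ k : ℕ, ∫ u, bprod φ (k, u) ∂(Measure.infinitePi (fun _ : ℕ => unif)) =
      (∫ u, φ u ∂unif) ^ k := by
    intro k
    unfold bprod
    rw [integral_prod_infinitePi (fun _ : ℕ => unif) (Finset.range k) (fun _ u => φ u)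
      (fun _ => hφ), Finset.prod_const, Finset.card_range]
  simp_rw [h2]
  rw [integral_poissonMeasure]
  set c : ℂ := ∫ u, φ u ∂unif with hc
  have h3 : ∫ u in (0:ℝ)..1, (φ u - 1) = c - 1 := by
    rw [intervalIntegral.integral_sub]
    · rw [intervalIntegral.integral_of_le zero_le_one, hc]
      simp [unif]
    · rw [intervalIntegrable_iff_integrableOn_Ioc_of_le zero_le_one]
      refine Integrable.mono' (g := fun _ => (1:ℝ)) (by simp)
        hφ.aestronglyMeasurable (ae_of_all _ fun u => h1 _)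
    · simp
  rw [h3]
  calc ∑' k : ℕ, (Real.exp (-(m:ℝ)) * (m:ℝ) ^ k / (k.factorial : ℝ)) • c ^ k
      = ∑' k : ℕ, (Real.exp (-(m:ℝ)) : ℂ) * (((m:ℝ) * c) ^ k / k.factorial) := by
        congr with k
        rw [Complex.real_smul]
        push_cast
        rw [mul_pow]
        ring
    _ = (Real.exp (-(m:ℝ)) : ℂ) * Complex.exp ((m:ℝ) * c) := by
        rw [tsum_mul_left, (NormedSpace.expSeries_div_hasSum_exp ((m:ℝ) * c)).tsum_eq,
          ← Complex.exp_eq_exp_ℂ]
    _ = Complex.exp ((m : ℝ) * (c - 1)) := by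
        rw [Complex.ofReal_exp, ← Complex.exp_add]
        congr 1
        push_cast
        ring

/-- shifted functional used in the `n`-th block -/
noncomputable def sh (φ : ℝ → ℂ) (n : ℕ) (u : ℝ) : ℂ := if 0 < u then φ (n + u) else 1

lemma measurable_sh {φ : ℝ → ℂ} (hφ : Measurable φ) (n : ℕ) : Measurable (sh φ n) := by
  unfold sh
  exact Measurable.ite measurableSet_Ioi (hφ.comp (by fun_prop)) measurable_const

/-- functional of a clock -/
noncomputable def cprod (φ : ℝ → ℂ) (M : ℕ) (w : ℕ → Blk) : ℂ :=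
  ∏ n ∈ Finset.range M, bprod (sh φ n) (w n)

lemma measurable_cprod {φ : ℝ → ℂ} (hφ : Measurable φ) (M : ℕ) : Measurable (cprod φ M) :=
  Finset.measurable_prod _ (fun n _ => (measurable_bprod (measurable_sh hφ n)).comp
    (measurable_pi_apply n))

lemma integral_cprod {φ : ℝ → ℂ} (hφ : Measurable φ) (h1 : ∀ x, ‖φ x‖ ≤ 1) (m : ℝ≥0) (M : ℕ) :
    ∫ w, cprod φ M w ∂(clk m) = Complex.exp ((m : ℝ) * ∫ u in (0:ℝ)..M, (φ u - 1)) := by
  unfold cprod clk
  rw [integral_prod_infinitePi (fun _ : ℕ => blk m) (Finset.range M) (fun n => bprod (sh φ n))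
    (fun n => measurable_bprod (measurable_sh hφ n))]
  have h0 : ∀ n u, ‖sh φ n u‖ ≤ 1 := by
    intro n u
    unfold sh
    split_ifs
    · exact h1 _
    · simp
  simp_rw [fun n => integral_bprod (measurable_sh hφ n) (h0 n)]
  rw [← Complex.exp_sum, ← Finset.mul_sum]
  congr 2
  have h2 : ∀ n : ℕ, ∫ u in (0:ℝ)..1, (sh φ n u - 1) =
      ∫ u in ((n : ℕ) : ℝ)..((n + 1 : ℕ) : ℝ), (φ u - 1) := by
    intro n
    have : ∫ u in (0:ℝ)..1, (sh φ n u - 1) = ∫ u in (0:ℝ)..1, (φ (n + u) - 1) := by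
      rw [intervalIntegral.integral_of_le zero_le_one, intervalIntegral.integral_of_le zero_le_one]
      apply setIntegral_congr_fun measurableSet_Ioc
      intro u hu
      simp only [sh, if_pos hu.1]
    rw [this, intervalIntegral.integral_comp_add_left (fun u => φ u - 1)]
    simp
  simp_rw [h2]
  rw [intervalIntegral.sum_integral_adjacent_intervals (a := fun n : ℕ => (n : ℝ))]
  · simp
  · intro k _
    rw [intervalIntegrable_iff_integrableOn_Ioc_of_le (by simp)]
    refine Integrable.mono' (g := fun _ => (2:ℝ)) (by simp)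
      (hφ.sub measurable_const).aestronglyMeasurable (ae_of_all _ fun u => ?_)
    calc ‖φ u - 1‖ ≤ ‖φ u‖ + ‖(1:ℂ)‖ := norm_sub_le _ _
      _ ≤ 2 := by have := h1 u; simp; linarith

/-- number of points of the clock `w` in `(0, t]` -/
noncomputable def cnt (w : ℕ → Blk) (t : ℝ) : ℕ :=
  ∑ n ∈ Finset.range ⌈t⌉₊, ((Finset.range (w n).1).filter
    (fun j => 0 < (w n).2 j ∧ n + (w n).2 j ≤ t)).card

lemma cnt_eq (w : ℕ → Blk) {t : ℝ} {M : ℕ} (hM : t ≤ M) :
    cnt w t = ∑ n ∈ Finset.range M, ((Finset.range (w n).1).filter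
      (fun j => 0 < (w n).2 j ∧ n + (w n).2 j ≤ t)).card := by
  unfold cnt
  have h1 : ⌈t⌉₊ ≤ M := Nat.ceil_le.mpr hM
  apply Finset.sum_subset (Finset.range_mono h1)
  intro n _ hn
  rw [Finset.mem_range, not_lt] at hn
  rw [Finset.card_eq_zero, Finset.filter_eq_empty_iff]
  intro j _ h
  have h2 : t ≤ n := Nat.ceil_le.mp hn
  linarith [h.1, h.2]

lemma cnt_mono (w : ℕ → Blk) : Monotone (cnt w) := by
  intro s t hst
  obtain ⟨M, hM⟩ := exists_nat_ge t
  rw [cnt_eq w hM, cnt_eq w (hst.trans hM)]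
  apply Finset.sum_le_sum
  intro n _
  apply Finset.card_le_card
  intro j hj
  rw [Finset.mem_filter] at hj ⊢
  exact ⟨hj.1, hj.2.1, hj.2.2.trans hst⟩

lemma cnt_zero (w : ℕ → Blk) {t : ℝ} (ht : t ≤ 0) : cnt w t = 0 := by
  rw [cnt_eq w (M := 0) (by simpa using ht)]
  simp

lemma cnt_right (w : ℕ → Blk) (t : ℝ) : ∀ᶠ t' in 𝓝[≥] t, cnt w t' = cnt w t := by
  obtain ⟨M, hM⟩ := exists_nat_gt t
  have h1 : ∀ᶠ t' : ℝ in 𝓝[≥] t, t' ≤ (M : ℝ) := by
    have : Set.Iio (M:ℝ) ∈ 𝓝[≥] t := mem_nhdsWithin_of_mem_nhds (Iio_mem_nhds hM)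
    filter_upwards [this] with t' ht' using le_of_lt ht'
  have h2 : ∀ p : ℝ, ∀ᶠ t' in 𝓝[≥] t, (p ≤ t' ↔ p ≤ t) := by
    intro p
    rcases le_or_gt p t with h | h
    · filter_upwards [self_mem_nhdsWithin] with t' ht'
      exact ⟨fun _ => h, fun _ => h.trans ht'⟩
    · have : Set.Iio p ∈ 𝓝[≥] t := mem_nhdsWithin_of_mem_nhds (Iio_mem_nhds h)
      filter_upwards [this] with t' ht'
      exact ⟨fun h' => absurd h' (not_le.mpr ht'), fun h' => absurd h' (not_le.mpr h)⟩
  have h3 : ∀ᶠ t' in 𝓝[≥] t, ∀ n ∈ Finset.range M, ∀ j ∈ Finset.range (w n).1,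
      ((n:ℝ) + (w n).2 j ≤ t' ↔ (n:ℝ) + (w n).2 j ≤ t) := by
    rw [Filter.eventually_all_finset]
    intro n _
    rw [Filter.eventually_all_finset]
    intro j _
    exact h2 _
  filter_upwards [h1, h3] with t' h1' h3'
  rw [cnt_eq w h1', cnt_eq w hM.le]
  apply Finset.sum_congr rfl
  intro n hn
  congr 1
  apply Finset.filter_congr
  intro j hj
  rw [h3' n hn j hj]

lemma measurable_cnt (t : ℝ) : Measurable (fun w => cnt w t) := by
  unfold cnt
  refine Finset.measurable_sum _ (fun n _ => ?_)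
  have h1 : Measurable (fun B : Blk => ((Finset.range B.1).filter
      (fun j => 0 < B.2 j ∧ n + B.2 j ≤ t)).card) := by
    apply measurable_blk
    intro k
    have h2 : ∀ u : ℕ → ℝ, ((Finset.range k).filter (fun j => 0 < u j ∧ n + u j ≤ t)).card =
        ∑ j ∈ Finset.range k, (if (0 < u j ∧ n + u j ≤ t) then 1 else 0) := by
      intro u
      rw [Finset.card_filter]
    simp only [h2]
    refine Finset.measurable_sum _ (fun j _ => ?_)
    have hm : Measurable (fun u : ℕ → ℝ => (n:ℝ) + u j) := by fun_prop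
    apply Measurable.ite _ measurable_const measurable_const
    exact (measurableSet_lt measurable_const (measurable_pi_apply j)).inter
      (measurableSet_le hm measurable_const)
  exact h1.comp (measurable_pi_apply n)

end Pool.Agent.Lib.MP_ee1e43_pr
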