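import Pool.Agent.Lib.MP_ee1e43_pr.Thin

/-!
# Deterministic counting lemma: most shifts are passed at a good time
-/

namespace Pool.Agent.Lib.MP_ee1e43_pr

open MeasureTheory ProbabilityTheory Filter Topology
open scoped NNReal ENNReal

/-- the index of the shift for which the position `v` lies at the beginning of the window -/
noncomputable def shiftIdx (a : ℝ) (M : ℕ) (v : ℝ) : ℕ := ((⌊v / a⌋ - 1) % (M : ℤ)).toNat

lemma shiftIdx_spec {a : ℝ} (ha : 0 < a) {M : ℕ} (hM : 0 < M) (v : ℝ) :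
    shiftIdx a M v < M ∧ ∃ q : ℤ, a ≤ v - (shiftIdx a M v : ℝ) * a - q * (M * a) ∧
      v - (shiftIdx a M v : ℝ) * a - q * (M * a) ≤ 2 * a := by
  have hM' : (0 : ℤ) < M := by exact_mod_cast hM
  have h1 := Int.emod_nonneg (⌊v / a⌋ - 1) hM'.ne'
  have h2 := Int.emod_lt_of_pos (⌊v / a⌋ - 1) hM'
  have h3 : ((shiftIdx a M v : ℕ) : ℤ) = (⌊v / a⌋ - 1) % (M : ℤ) := Int.toNat_of_nonneg h1
  constructor
  · have : ((shiftIdx a M v : ℕ) : ℤ) < M := by rw [h3]; exact h2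
    exact_mod_cast this
  · refine ⟨(⌊v / a⌋ - 1) / (M : ℤ), ?_⟩
    have h4 := Int.emod_add_mul_ediv (⌊v / a⌋ - 1) (M : ℤ)
    rw [← h3] at h4
    have h5 : ((shiftIdx a M v : ℕ) : ℝ) + M * (((⌊v / a⌋ - 1) / (M : ℤ) : ℤ) : ℝ) =
        (⌊v / a⌋ : ℝ) - 1 := by exact_mod_cast h4
    have h6 := Int.floor_le (v / a)
    have h7 := Int.lt_floor_add_one (v / a)
    rw [le_div_iff₀ ha] at h6
    rw [div_lt_iff₀ ha] at h7
    set q : ℤ := (⌊v / a⌋ - 1) / (M : ℤ) with hq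
    have h8 : (shiftIdx a M v : ℝ) * a + (q : ℝ) * (M * a) = ((⌊v / a⌋ : ℝ) - 1) * a := by
      rw [← h5]; ring
    constructor <;> linarith

/-- two positions with distance in `[a, M a - a]` have different shift indices -/
lemma shiftIdx_ne {a : ℝ} (ha : 0 < a) {M : ℕ} (hM : 0 < M) {v v' : ℝ} (h1 : a ≤ v' - v)
    (h2 : v' - v ≤ M * a - a) : shiftIdx a M v ≠ shiftIdx a M v' := by
  intro h
  have hM' : (0 : ℤ) < M := by exact_mod_cast hM
  have e1 : ((shiftIdx a M v : ℕ) : ℤ) = (⌊v / a⌋ - 1) % (M : ℤ) :=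
    Int.toNat_of_nonneg (Int.emod_nonneg _ hM'.ne')
  have e2 : ((shiftIdx a M v' : ℕ) : ℤ) = (⌊v' / a⌋ - 1) % (M : ℤ) :=
    Int.toNat_of_nonneg (Int.emod_nonneg _ hM'.ne')
  have e3 : (⌊v / a⌋ - 1) % (M : ℤ) = (⌊v' / a⌋ - 1) % (M : ℤ) := by rw [← e1, ← e2, h]
  have e4 : (M : ℤ) ∣ (⌊v' / a⌋ - 1) - (⌊v / a⌋ - 1) := Int.ModEq.dvd e3
  have e5 : (⌊v' / a⌋ - 1) - (⌊v / a⌋ - 1) = ⌊v' / a⌋ - ⌊v / a⌋ := by ring
  rw [e5] at e4
  have h3 := Int.floor_le (v / a)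
  have h4 := Int.lt_floor_add_one (v / a)
  have h5 := Int.floor_le (v' / a)
  have h6 := Int.lt_floor_add_one (v' / a)
  have h7 : v' / a - v / a = (v' - v) / a := by ring
  have h8 : 1 ≤ (v' - v) / a := by rwa [one_le_div ha]
  have h9 : (v' - v) / a ≤ M - 1 := by
    rw [div_le_iff₀ ha]; linarith
  have h10 : (0 : ℝ) < (⌊v' / a⌋ : ℝ) - ⌊v / a⌋ := by linarith
  have h11 : (⌊v' / a⌋ : ℝ) - ⌊v / a⌋ < M := by linarith
  have h12 : (0 : ℤ) < ⌊v' / a⌋ - ⌊v / a⌋ := by exact_mod_cast h10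
  have h13 : ⌊v' / a⌋ - ⌊v / a⌋ < (M : ℤ) := by exact_mod_cast h11
  have := Int.le_of_dvd h12 e4
  omega

/-- number of grid points in an interval -/
lemma card_grid {δ s e : ℝ} (hδ : 0 < δ) (hs : 0 ≤ s) {n : ℕ} (hn : e < n * δ) :
    (e - s) / δ - 1 ≤ (((Finset.range n).filter (fun i : ℕ => s ≤ i * δ ∧ i * δ ≤ e)).card : ℝ) := by
  by_cases hse : s ≤ e
  · have he : 0 ≤ e := hs.trans hse
    have h1 : Finset.Icc ⌈s / δ⌉₊ ⌊e / δ⌋₊ ⊆
        (Finset.range n).filter (fun i : ℕ => s ≤ i * δ ∧ i * δ ≤ e) := by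
      intro i hi
      rw [Finset.mem_Icc] at hi
      have h2 : s / δ ≤ i := (Nat.ceil_le.mp hi.1)
      have h3 : (i : ℝ) ≤ e / δ := (Nat.le_floor_iff (by positivity)).mp hi.2
      rw [div_le_iff₀ hδ] at h2
      rw [le_div_iff₀ hδ] at h3
      rw [Finset.mem_filter, Finset.mem_range]
      refine ⟨?_, h2, h3⟩
      have h4 : (i : ℝ) * δ < n * δ := lt_of_le_of_lt h3 hn
      have := lt_of_mul_lt_mul_right h4 hδ.le
      exact_mod_cast this
    have h5 := Finset.card_le_card h1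
    rw [Nat.card_Icc] at h5
    have h6 : (⌊e / δ⌋₊ : ℝ) + 1 - ⌈s / δ⌉₊ ≤ ((⌊e / δ⌋₊ + 1 - ⌈s / δ⌉₊ : ℕ) : ℝ) := by
      rcases le_total ⌈s / δ⌉₊ (⌊e / δ⌋₊ + 1) with h | h
      · rw [Nat.cast_sub h]; push_cast; linarith
      · rw [Nat.sub_eq_zero_of_le h]
        have : ((⌊e / δ⌋₊ + 1 : ℕ) : ℝ) ≤ ⌈s / δ⌉₊ := by exact_mod_cast h
        push_cast at this ⊢
        linarith
    have h7 : e / δ < ⌊e / δ⌋₊ + 1 := Nat.lt_floor_add_one _
    have h8 : (⌈s / δ⌉₊ : ℝ) < s / δ + 1 := Nat.ceil_lt_add_one (by positivity)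
    have h9 : (e - s) / δ = e / δ - s / δ := by ring
    have h10 : ((⌊e / δ⌋₊ + 1 - ⌈s / δ⌉₊ : ℕ) : ℝ) ≤
      (((Finset.range n).filter (fun i : ℕ => s ≤ i * δ ∧ i * δ ≤ e)).card : ℝ) := by
      exact_mod_cast h5
    linarith
  · push Not at hse
    have h1 : (e - s) / δ ≤ 0 := div_nonpos_of_nonpos_of_nonneg (by linarith) hδ.le
    have h2 : (0 : ℝ) ≤
      (((Finset.range n).filter (fun i : ℕ => s ≤ i * δ ∧ i * δ ≤ e)).card : ℝ) :=
      Nat.cast_nonneg _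
    linarith

open Classical in
/-- counting lemma -/
lemma cover {v : ℕ → ℝ} {a δ s L L' : ℝ} {M n N : ℕ} {B : ℕ → Prop} (ha : 0 < a) (hM : 0 < M)
    (hδ : 0 < δ) (hs : 0 ≤ s) (hn : s + L < n * δ) (hL' : 0 ≤ L')
    (h1 : ∀ i < n, ¬ B i → ∀ j < n, i < j → a ≤ v j - v i)
    (h2 : ∀ i < n, ∀ j < n, s ≤ i * δ → i * δ ≤ s + L → s ≤ j * δ → j * δ ≤ s + L →
      v j - v i ≤ M * a - a)
    (hB : ((Finset.range n).filter (fun i => B i)).card ≤ N) :
    (L - L') / δ - 1 - N ≤ (((Finset.range M).filter (fun θ : ℕ => ∃ i < n, ¬ B i ∧ s ≤ i * δ ∧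
      i * δ + L' ≤ s + L ∧ shiftIdx a M (v i) = θ)).card : ℝ) := by
  set I := (Finset.range n).filter (fun i : ℕ => s ≤ i * δ ∧ i * δ ≤ s + L - L') with hI
  set J := I.filter (fun i => ¬ B i) with hJ
  have hc1 : ((s + L - L') - s) / δ - 1 ≤ (I.card : ℝ) :=
    card_grid hδ hs (by linarith)
  have hc2 : I.card ≤ J.card + N := by
    have h3 : I.card = (I.filter (fun i => B i)).card + J.card := by
      rw [hJ, Finset.card_filter_add_card_filter_not]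
    have h4 : (I.filter (fun i => B i)).card ≤ N := by
      refine le_trans (Finset.card_le_card ?_) hB
      intro i hi
      rw [Finset.mem_filter] at hi ⊢
      exact ⟨(Finset.mem_filter.mp hi.1).1, hi.2⟩
    omega
  have hc3 : J.card ≤ ((Finset.range M).filter (fun θ : ℕ => ∃ i < n, ¬ B i ∧ s ≤ i * δ ∧
      i * δ + L' ≤ s + L ∧ shiftIdx a M (v i) = θ)).card := by
    apply Finset.card_le_card_of_injOn (fun i => shiftIdx a M (v i))
    · intro i hi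
      rw [Finset.mem_coe, hJ, Finset.mem_filter, hI, Finset.mem_filter, Finset.mem_range] at hi
      rw [Finset.mem_coe, Finset.mem_filter, Finset.mem_range]
      exact ⟨(shiftIdx_spec ha hM (v i)).1, i, hi.1.1, hi.2, hi.1.2.1, by linarith [hi.1.2.2], rfl⟩
    · intro i hi j hj hij
      rw [Finset.mem_coe, hJ, Finset.mem_filter, hI, Finset.mem_filter, Finset.mem_range] at hi hj
      by_contra hne
      simp only at hij
      rcases lt_or_gt_of_ne hne with h | h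
      · exact shiftIdx_ne ha hM (h1 i hi.1.1 hi.2 j hj.1.1 h)
          (h2 i hi.1.1 j hj.1.1 hi.1.2.1 (by linarith [hi.1.2.2]) hj.1.2.1
            (by linarith [hj.1.2.2])) hij
      · exact shiftIdx_ne ha hM (h1 j hj.1.1 hj.2 i hi.1.1 h)
          (h2 j hj.1.1 i hi.1.1 hj.1.2.1 (by linarith [hj.1.2.2]) hi.1.2.1
            (by linarith [hi.1.2.2])) hij.symm
  have hc4 : (I.card : ℝ) ≤ J.card + N := by exact_mod_cast hc2
  have hc5 : (J.card : ℝ) ≤ (((Finset.range M).filter (fun θ : ℕ => ∃ i < n, ¬ B i ∧ s ≤ i * δ ∧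
      i * δ + L' ≤ s + L ∧ shiftIdx a M (v i) = θ)).card : ℝ) := by exact_mod_cast hc3
  have : (s + L - L' - s) / δ = (L - L') / δ := by ring
  linarith

end Pool.Agent.Lib.MP_ee1e43_pr
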