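import Mathlib

/-!
# Lévy processes on the real line and Hunt's hypothesis (H)

Definitions used in the statement.
-/

namespace Pool.Agent.Lib.MP_ee1e43_pr

open MeasureTheory ProbabilityTheory Filter Topology
open scoped NNReal ENNReal

/-- The path `f` is right continuous and has left limits. -/
def IsCadlag (f : ℝ≥0 → ℝ) : Prop :=
  ∀ t, ContinuousWithinAt f (Set.Ici t) t ∧ ∃ l, Tendsto f (𝓝[<] t) (𝓝 l)

variable {Ω : Type} [MeasurableSpace Ω]

/-- Under `P`, the process `X` is a (one-dimensional) Lévy process started at `0`. The Lévy process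
started at `x` is `x + X`, and its law is `P^x`. -/
structure IsLevyProcess (P : Measure Ω) (X : ℝ≥0 → Ω → ℝ) : Prop where
  /-- each `X t` is a random variable -/
  measurable : ∀ t, Measurable (X t)
  /-- it starts at `0` -/
  zero : ∀ ω, X 0 ω = 0
  /-- increments over disjoint intervals are independent -/
  indep : HasIndepIncrements X P
  /-- `X (s + t) - X s` has the law of `X t` -/
  stationary : ∀ s t, IdentDistrib (fun ω => X (s + t) ω - X s ω) (X t) P P
  /-- all paths are right continuous with left limits -/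
  cadlag : ∀ ω, IsCadlag (fun t => X t ω)

/-- `b`, `σ2` and `μ` are the drift, the Gaussian coefficient and the Lévy measure of the Lévy
process `X`: the Lévy-Khintchine formula with the truncation function `x ↦ x 1_{|x| ≤ 1}` holds. -/
structure HasLevyTriplet (P : Measure Ω) (X : ℝ≥0 → Ω → ℝ) (b : ℝ) (σ2 : ℝ≥0) (μ : Measure ℝ) :
    Prop where
  /-- the Lévy measure does not charge `0` -/
  zero : μ {0} = 0
  /-- the Lévy measure integrates `1 ∧ x^2` -/
  lintegral : ∫⁻ x, ENNReal.ofReal (min 1 (x ^ 2)) ∂μ < ∞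
  /-- the Lévy-Khintchine formula -/
  charFun : ∀ (t : ℝ≥0) (u : ℝ), charFun (P.map (X t)) u =
    Complex.exp ((t : ℝ) * (Complex.I * b * u - (σ2 : ℝ) * u ^ 2 / 2 +
      ∫ x, (Complex.exp (Complex.I * u * x) - 1 -
        if |x| ≤ 1 then Complex.I * u * x else 0) ∂μ))

/-- The hitting time `T_A = inf {t > 0 : X_t ∈ A}` of the Lévy process started at `x`
(with value `∞` if there is no such `t`). -/
noncomputable def hit (X : ℝ≥0 → Ω → ℝ) (A : Set ℝ) (x : ℝ) (ω : Ω) : ℝ≥0∞ :=
  ⨅ (t : ℝ≥0) (_ : 0 < t ∧ x + X t ω ∈ A), (t : ℝ≥0∞)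

/-- `A` is nearly Borel: for each initial law `ν` it lies between two Borel sets whose difference
is a.s. never visited. -/
def NearlyBorel (P : Measure Ω) (X : ℝ≥0 → Ω → ℝ) (A : Set ℝ) : Prop :=
  ∀ ν : Measure ℝ, IsProbabilityMeasure ν → ∃ B C : Set ℝ, MeasurableSet B ∧ MeasurableSet C ∧
    B ⊆ A ∧ A ⊆ C ∧ (ν.prod P) {p | ∃ t, p.1 + X t p.2 ∈ C \ B} = 0

/-- `A` is polar: `P^x (T_A < ∞) = 0` for every `x`. -/
def Polar (P : Measure Ω) (X : ℝ≥0 → Ω → ℝ) (A : Set ℝ) : Prop :=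
  ∀ x, P {ω | hit X A x ω < ∞} = 0

/-- `A` is thin: `P^x (T_A = 0) = 0` for every `x`. -/
def Thin (P : Measure Ω) (X : ℝ≥0 → Ω → ℝ) (A : Set ℝ) : Prop :=
  ∀ x, P {ω | hit X A x ω = 0} = 0

/-- `A` is semipolar: it is contained in a countable union of thin (nearly Borel) sets. -/
def Semipolar (P : Measure Ω) (X : ℝ≥0 → Ω → ℝ) (A : Set ℝ) : Prop :=
  ∃ B : ℕ → Set ℝ, (∀ n, NearlyBorel P X (B n) ∧ Thin P X (B n)) ∧ A ⊆ ⋃ n, B n

/-- Hunt's hypothesis (H): every semipolar (nearly Borel) set is polar. -/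
def HuntH (P : Measure Ω) (X : ℝ≥0 → Ω → ℝ) : Prop :=
  ∀ A, NearlyBorel P X A → Semipolar P X A → Polar P X A

end Pool.Agent.Lib.MP_ee1e43_pr
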