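import Pool.Agent.Lib.MP_ee1e43_pr.Level

/-!
# For suitable shifts the set is hit with positive probability
-/

namespace Pool.Agent.Lib.MP_ee1e43_pr

open MeasureTheory ProbabilityTheory Filter Topology
open scoped NNReal ENNReal

variable (b x : ℕ → ℝ)

/-- left end points of the time intervals -/
noncomputable def st (k i : ℕ) : ℝ :=
  match k with
  | 0 => T b x 0
  | k + 1 => i * del b x k

/-- the interval with the index `i` of level `k` is reached by a chain of nested intervals on
which the path is in the windows -/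
def Reach (θ : ℕ → ℝ) (ω : Sp) : ℕ → ℕ → Prop
  | 0, i => i = 0
  | k + 1, i => ∃ i0, Reach θ ω k i0 ∧ i < ng b x k ∧ st b x k i0 ≤ i * del b x k ∧
      i * del b x k + Len b x (k + 1) ≤ st b x k i0 + Len b x k ∧
      (∀ q : ℚ, i * del b x k ≤ q → q ≤ i * del b x k + Len b x (k + 1) →
        Win b x k (θ k) (X b x q ω)) ∧
      Win b x k (θ k) (X b x (i * del b x k + Len b x (k + 1)) ω)

/-- a chain of length `k` exists -/
def EE (θ : ℕ → ℝ) (k : ℕ) : Set Sp := {ω | ∃ i, Reach b x θ ω k i}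

variable {b x}

lemma reach_congr {θ θ' : ℕ → ℝ} {ω : Sp} {k : ℕ} (h : ∀ j < k, θ j = θ' j) {i : ℕ}
    (hr : Reach b x θ ω k i) : Reach b x θ' ω k i := by
  induction k generalizing i with
  | zero => exact hr
  | succ k ih =>
    obtain ⟨i0, h1, h2, h3, h4, h5, h6⟩ := hr
    refine ⟨i0, ih (fun j hj => h j (by omega)) h1, h2, h3, h4, ?_, ?_⟩
    · rw [← h k (by omega)]; exact h5
    · rw [← h k (by omega)]; exact h6

lemma EE_congr {θ θ' : ℕ → ℝ} {k : ℕ} (h : ∀ j < k, θ j = θ' j) : EE b x θ k = EE b x θ' k := by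
  ext ω
  constructor
  · rintro ⟨i, hi⟩; exact ⟨i, reach_congr h hi⟩
  · rintro ⟨i, hi⟩; exact ⟨i, reach_congr (fun j hj => (h j hj).symm) hi⟩

lemma EE_succ (θ : ℕ → ℝ) (k : ℕ) : EE b x θ (k + 1) ⊆ EE b x θ k := by
  rintro ω ⟨i, i0, h, _⟩
  exact ⟨i0, h⟩

lemma reach_bounds (hp : Par b x) {θ : ℕ → ℝ} {ω : Sp} {k i : ℕ} (h : Reach b x θ ω k i) :
    T b x 0 ≤ st b x k i ∧ st b x k i + Len b x k ≤ Hor b x := by
  induction k generalizing i with
  | zero =>
    unfold st Len Hor
    have := T_pos hp 0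
    have := eta_pos 0
    constructor
    · exact le_rfl
    · nlinarith
  | succ k ih =>
    obtain ⟨i0, h1, h2, h3, h4, h5, h6⟩ := h
    have h7 := ih h1
    constructor
    · exact h7.1.trans h3
    · exact h4.trans h7.2

lemma measurableSet_Win (hp : Par b x) (k : ℕ) (θ t : ℝ) :
    MeasurableSet {ω | Win b x k θ (X b x t ω)} :=
  (measurable_X t) (isClosed_Win hp k θ).measurableSet

lemma measurableSet_reach (hp : Par b x) (θ : ℕ → ℝ) (k i : ℕ) :
    MeasurableSet {ω | Reach b x θ ω k i} := by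
  induction k generalizing i with
  | zero => exact MeasurableSet.const _
  | succ k ih =>
    have : {ω | Reach b x θ ω (k + 1) i} = ⋃ i0, ({ω | Reach b x θ ω k i0} ∩
        ({_ω | i < ng b x k ∧ st b x k i0 ≤ i * del b x k ∧
          i * del b x k + Len b x (k + 1) ≤ st b x k i0 + Len b x k} ∩
        ((⋂ q : ℚ, ⋂ (_ : (i * del b x k : ℝ) ≤ q),
          ⋂ (_ : (q : ℝ) ≤ i * del b x k + Len b x (k + 1)),
          {ω | Win b x k (θ k) (X b x q ω)}) ∩
        {ω | Win b x k (θ k) (X b x (i * del b x k + Len b x (k + 1)) ω)}))) := by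
      ext ω
      simp only [Reach, Set.mem_ofPred_eq, Set.mem_iUnion, Set.mem_inter_iff, Set.mem_iInter]
      constructor
      · rintro ⟨i0, h1, h2, h3, h4, h5, h6⟩; exact ⟨i0, h1, ⟨h2, h3, h4⟩, h5, h6⟩
      · rintro ⟨i0, h1, ⟨h2, h3, h4⟩, h5, h6⟩; exact ⟨i0, h1, h2, h3, h4, h5, h6⟩
    rw [this]
    refine MeasurableSet.iUnion fun i0 => (ih i0).inter ((MeasurableSet.const _).inter
      ((MeasurableSet.iInter fun q => MeasurableSet.iInter fun _ => MeasurableSet.iInter fun _ =>
        measurableSet_Win hp k _ _).inter (measurableSet_Win hp k _ _)))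

lemma measurableSet_EE (hp : Par b x) (θ : ℕ → ℝ) (k : ℕ) : MeasurableSet (EE b x θ k) := by
  have : EE b x θ k = ⋃ i, {ω | Reach b x θ ω k i} := by
    ext ω; simp [EE]
  rw [this]
  exact MeasurableSet.iUnion fun i => measurableSet_reach hp θ k i

/-- from rational times to real times -/
lemma win_real (hp : Par b x) {k : ℕ} {θ : ℝ} {ω : Sp} {u v t : ℝ} (hu : 0 ≤ u)
    (h : ∀ q : ℚ, u ≤ q → q ≤ v → Win b x k θ (X b x q ω)) (hv : Win b x k θ (X b x v ω))
    (h1 : u ≤ t) (h2 : t ≤ v) : Win b x k θ (X b x t ω) := by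
  rcases eq_or_lt_of_le h2 with h3 | h3
  · rw [h3]; exact hv
  · by_contra hcon
    have h4 : {y | Win b x k θ y}ᶜ ∈ 𝓝 (X b x t ω) :=
      (isClosed_Win hp k θ).isOpen_compl.mem_nhds hcon
    have h5 : Tendsto (fun t' => X b x t' ω) (𝓝[≥] t) (𝓝 (X b x t ω)) :=
      X_right hp ω (hu.trans h1)
    have h6 := h5.eventually h4
    rw [eventually_nhdsWithin_iff] at h6
    obtain ⟨ε, hε, h7⟩ := Metric.eventually_nhds_iff.mp h6
    obtain ⟨q, hq1, hq2⟩ := exists_rat_btwn (lt_min (lt_add_of_pos_right t hε) h3)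
    rw [lt_min_iff] at hq2
    have h8 := h7 (y := q) (by rw [Real.dist_eq, abs_of_pos (by linarith)]; linarith [hq2.1])
      hq1.le
    exact h8 (h q (h1.trans hq1.le) hq2.2.le)

/-- if chains of all lengths exist then the set is hit -/
lemma exists_hit (hp : Par b x) {θ : ℕ → ℝ} {ω : Sp} (h : ∀ k, ω ∈ EE b x θ k) :
    ∃ t : ℝ, 0 < t ∧ X b x t ω ∈ setA b x θ := by
  classical
  set Z : ℕ → Set ℝ := fun k => ⋃ i ∈ {i | Reach b x θ ω k i},
    Set.Icc (st b x k i) (st b x k i + Len b x k) with hZ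
  have hfin : ∀ k, {i | Reach b x θ ω k i}.Finite := by
    intro k
    cases k with
    | zero =>
      apply Set.Finite.subset (Set.finite_singleton 0)
      intro i hi
      exact hi
    | succ k =>
      apply Set.Finite.subset (Set.finite_Iio (ng b x k))
      rintro i ⟨i0, _, h2, _⟩
      exact h2
  have hcomp : ∀ k, IsCompact (Z k) := fun k =>
    (hfin k).isCompact_biUnion fun i _ => isCompact_Icc
  have hne : ∀ k, (Z k).Nonempty := by
    intro k
    obtain ⟨i, hi⟩ := h k
    refine ⟨st b x k i, ?_⟩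
    rw [hZ]
    simp only [Set.mem_iUnion]
    exact ⟨i, hi, le_rfl, by have := Len_pos hp k; linarith⟩
  have hdec : ∀ k, Z (k + 1) ⊆ Z k := by
    intro k t ht
    rw [hZ] at ht ⊢
    simp only [Set.mem_iUnion] at ht ⊢
    obtain ⟨i, ⟨i0, h1, h2, h3, h4, h5, h6⟩, ht1⟩ := ht
    refine ⟨i0, h1, ?_, ?_⟩
    · exact h3.trans ht1.1
    · exact ht1.2.trans h4
  obtain ⟨t, ht⟩ := IsCompact.nonempty_iInter_of_sequence_nonempty_isCompact_isClosed Z hdec hne
    (hcomp 0) (fun k => (hcomp k).isClosed)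
  rw [Set.mem_iInter] at ht
  refine ⟨t, ?_, fun k => ?_⟩
  · have h0 := ht 0
    rw [hZ] at h0
    simp only [Set.mem_iUnion] at h0
    obtain ⟨i, _, h1, _⟩ := h0
    exact lt_of_lt_of_le (T_pos hp 0) h1
  · have h1 := ht (k + 1)
    rw [hZ] at h1
    simp only [Set.mem_iUnion] at h1
    obtain ⟨i, hi, h2, h3⟩ := h1
    have hb := reach_bounds hp hi
    obtain ⟨i0, _, _, _, _, h5, h6⟩ := hi
    exact win_real hp ((T_pos hp 0).le.trans hb.1) h5 h6 h2 h3

variable {M : ℕ → ℕ}

/-- the good event -/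
noncomputable def Good (b x : ℕ → ℝ) (M : ℕ → ℕ) : Set Sp :=
  {ω | ω ∈ G0 b x ∧ ∀ k, ω ∉ badG b x k ∧ ω ∉ badN b x M k}

lemma measure_Good_compl (hp : Par3 b x M) :
    Pr b x (Good b x M)ᶜ ≤ ENNReal.ofReal (1 / 4) := by
  have h1 : (Good b x M)ᶜ ⊆ (G0 b x)ᶜ ∪ ⋃ k, (badG b x k ∪ badN b x M k) := by
    intro ω hω
    by_cases hG : ω ∈ G0 b x
    · right
      have hω' : ¬ ∀ k, ω ∉ badG b x k ∧ ω ∉ badN b x M k := fun h => hω ⟨hG, h⟩
      rw [not_forall] at hω'
      obtain ⟨k, hk⟩ := hω'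
      rw [Set.mem_iUnion]
      refine ⟨k, ?_⟩
      by_contra hcon
      rw [Set.mem_union, not_or] at hcon
      exact hk ⟨hcon.1, hcon.2⟩
    · left; exact hG
  have h2 : Pr b x (G0 b x)ᶜ = 0 := ae_G0 hp.toPar
  calc Pr b x (Good b x M)ᶜ ≤ Pr b x ((G0 b x)ᶜ ∪ ⋃ k, (badG b x k ∪ badN b x M k)) :=
        measure_mono h1
    _ ≤ Pr b x (G0 b x)ᶜ + Pr b x (⋃ k, (badG b x k ∪ badN b x M k)) := measure_union_le _ _
    _ ≤ 0 + ∑' k, Pr b x (badG b x k ∪ badN b x M k) := by
        rw [h2]
        gcongr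
        exact measure_iUnion_le _
    _ ≤ ∑' k, ENNReal.ofReal (1 / 8 * (1 / 2) ^ k) := by
        rw [zero_add]
        apply ENNReal.tsum_le_tsum
        intro k
        refine (measure_union_le _ _).trans ?_
        refine (add_le_add (measure_badG hp k) (measure_badN hp k)).trans (le_of_eq ?_)
        rw [← ENNReal.ofReal_add (by positivity) (by positivity)]
        congr 1
        rw [pow_add]
        ring
    _ = ENNReal.ofReal (1 / 4) := by
        rw [← ENNReal.ofReal_tsum_of_nonneg (fun j => by positivity)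
          ((summable_geometric_of_lt_one (by norm_num) (by norm_num)).mul_left _), tsum_mul_left,
          tsum_geometric_two]
        norm_num

/-- one step of the choice of the shifts -/
lemma greedy_step (hp : Par3 b x M) {G : Set Sp} (hGm : MeasurableSet G) (hG : G ⊆ Good b x M)
    (θ : ℕ → ℝ) (k : ℕ) : ∃ v : ℝ, (1 - 4 * eta k) * (Pr b x).real (G ∩ EE b x θ k) ≤
      (Pr b x).real (G ∩ EE b x (Function.update θ k v) (k + 1)) := by
  classical
  set p := (Pr b x).real (G ∩ EE b x θ k) with hpdef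
  set Ev : ℕ → Set Sp := fun v => G ∩ EE b x (Function.update θ k (v * aa b x k)) (k + 1)
    with hEv
  have hEvm : ∀ v, MeasurableSet (Ev v) := fun v => hGm.inter (measurableSet_EE hp.toPar _ _)
  have hE : MeasurableSet (G ∩ EE b x θ k) := hGm.inter (measurableSet_EE hp.toPar _ _)
  have hM : (0:ℝ) < M k := by exact_mod_cast M_pos hp k
  have hpt : ∀ ω, (G ∩ EE b x θ k).indicator (fun _ => (1 - 4 * eta k) * (M k : ℝ)) ω ≤
      ∑ v ∈ Finset.range (M k), (Ev v).indicator (fun _ => (1:ℝ)) ω := by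
    intro ω
    by_cases hω : ω ∈ G ∩ EE b x θ k
    · rw [Set.indicator_of_mem hω]
      obtain ⟨hωG, i0, hi0⟩ := hω
      have hgood := hG hωG
      obtain ⟨hb1, hb2⟩ := reach_bounds hp.toPar hi0
      have h1 := level_cover hp hgood.1 (hgood.2 k).1 (hgood.2 k).2
        ((T_pos hp.toPar 0).le.trans hb1) hb2
      refine h1.trans ?_
      rw [Finset.card_filter]
      push_cast
      apply Finset.sum_le_sum
      intro v hv
      split_ifs with h
      · obtain ⟨i, hi, h2, h3, h4⟩ := h
        have hmem : ω ∈ Ev v := by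
          refine ⟨hωG, i, i0, ?_, hi, h2, h3, ?_, ?_⟩
          · refine reach_congr (fun j hj => ?_) hi0
            rw [Function.update_of_ne (by omega)]
          · intro q hq1 hq2
            rw [Function.update_self]
            have := h4 (q - i * del b x k) ⟨by linarith, by linarith⟩
            rwa [add_sub_cancel] at this
          · rw [Function.update_self]
            exact h4 _ ⟨(Len_pos hp.toPar _).le, le_rfl⟩
        rw [Set.indicator_of_mem hmem]
      · exact Set.indicator_nonneg (fun _ _ => zero_le_one) _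
    · rw [Set.indicator_of_notMem hω]
      exact Finset.sum_nonneg fun v _ => Set.indicator_nonneg (fun _ _ => zero_le_one) _
  have hint : (1 - 4 * eta k) * (M k : ℝ) * p ≤
      ∑ v ∈ Finset.range (M k), (Pr b x).real (Ev v) := by
    have h1 : ∫ ω, (G ∩ EE b x θ k).indicator (fun _ => (1 - 4 * eta k) * (M k : ℝ)) ω
        ∂(Pr b x) = (1 - 4 * eta k) * (M k : ℝ) * p := by
      rw [integral_indicator_const _ hE, smul_eq_mul]
      ring
    have h2 : ∫ ω, ∑ v ∈ Finset.range (M k), (Ev v).indicator (fun _ => (1:ℝ)) ω ∂(Pr b x) =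
        ∑ v ∈ Finset.range (M k), (Pr b x).real (Ev v) := by
      rw [integral_finsetSum]
      · apply Finset.sum_congr rfl
        intro v _
        rw [integral_indicator_const _ (hEvm v), smul_eq_mul, mul_one]
      · intro v _
        exact (integrable_const _).indicator (hEvm v)
    rw [← h1, ← h2]
    apply integral_mono
    · exact (integrable_const _).indicator hE
    · exact integrable_finsetSum _ fun v _ => (integrable_const _).indicator (hEvm v)
    · exact hpt
  by_contra hcon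
  push Not at hcon
  have h3 : ∑ v ∈ Finset.range (M k), (Pr b x).real (Ev v) <
      ∑ _v ∈ Finset.range (M k), (1 - 4 * eta k) * p := by
    apply Finset.sum_lt_sum_of_nonempty
    · rw [Finset.nonempty_range_iff]; exact (M_pos hp k).ne'
    · intro v _
      exact hcon (v * aa b x k)
  rw [Finset.sum_const, Finset.card_range, nsmul_eq_mul] at h3
  linarith

/-- for suitable shifts the set is hit with positive probability -/
lemma exists_shifts (hp : Par3 b x M) : ∃ θ : ℕ → ℝ,
    Pr b x {ω | ∃ t : ℝ, 0 < t ∧ X b x t ω ∈ setA b x θ} ≠ 0 := by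
  set G : Set Sp := (toMeasurable (Pr b x) (Good b x M)ᶜ)ᶜ with hGdef
  have hGm : MeasurableSet G := (measurableSet_toMeasurable _ _).compl
  have hG : G ⊆ Good b x M := by
    rw [hGdef, Set.compl_subset_comm]
    exact subset_toMeasurable _ _
  have hPG : 3 / 4 ≤ (Pr b x).real G := by
    have h1 : (Pr b x).real (toMeasurable (Pr b x) (Good b x M)ᶜ) ≤ 1 / 4 := by
      rw [measureReal_def, measure_toMeasurable]
      exact ENNReal.toReal_le_of_le_ofReal (by norm_num) (measure_Good_compl hp)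
    rw [hGdef, probReal_compl_eq_one_sub (measurableSet_toMeasurable _ _)]
    linarith
  choose V hV using fun θ k => greedy_step hp hGm hG θ k
  let sq : ℕ → (ℕ → ℝ) := fun k => Nat.rec (fun _ => 0) (fun k θ => Function.update θ k (V θ k)) k
  have hsq : ∀ k, sq (k + 1) = Function.update (sq k) k (V (sq k) k) := fun k => rfl
  set θ : ℕ → ℝ := fun k => V (sq k) k with hθ
  have hagree : ∀ k, ∀ j < k, θ j = sq k j := by
    intro k
    induction k with
    | zero => intro j hj; omega
    | succ k ih =>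
      intro j hj
      rw [hsq]
      rcases eq_or_lt_of_le (Nat.lt_succ_iff.mp hj) with h | h
      · rw [h, Function.update_self]
      · rw [Function.update_of_ne (by omega)]
        exact ih j h
  have hstep : ∀ k, (1 - 4 * eta k) * (Pr b x).real (G ∩ EE b x θ k) ≤
      (Pr b x).real (G ∩ EE b x θ (k + 1)) := by
    intro k
    rw [EE_congr (hagree k), EE_congr (hagree (k + 1)), hsq]
    exact hV (sq k) k
  have hlow : ∀ k, 3 / 4 - 4 * ∑ j ∈ Finset.range k, eta j ≤
      (Pr b x).real (G ∩ EE b x θ k) := by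
    intro k
    induction k with
    | zero =>
      have : EE b x θ 0 = Set.univ := by
        ext ω; simp [EE, Reach]
      rw [this, Set.inter_univ]
      simpa using hPG
    | succ k ih =>
      rw [Finset.sum_range_succ]
      have h1 := hstep k
      have h2 : (Pr b x).real (G ∩ EE b x θ k) ≤ 1 := measureReal_le_one
      have h3 := eta_pos k
      nlinarith
  have heta : ∀ k, ∑ j ∈ Finset.range k, eta j ≤ 1 / 32 := by
    intro k
    have h1 : HasSum eta (1 / 32) := by
      have := hasSum_geometric_two.mul_left (1 / 64 : ℝ)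
      convert! this using 1
      · ext j
        unfold eta
        rw [pow_add]; ring
      · norm_num
    exact sum_le_hasSum _ (fun j _ => (eta_pos j).le) h1
  have hlow' : ∀ k, ENNReal.ofReal (5 / 8) ≤ Pr b x (G ∩ EE b x θ k) := by
    intro k
    have h1 : 5 / 8 ≤ (Pr b x).real (G ∩ EE b x θ k) := by
      have := hlow k
      have := heta k
      linarith
    rw [measureReal_def] at h1
    exact (ENNReal.ofReal_le_iff_le_toReal (measure_ne_top _ _)).mpr h1
  have hlim : Tendsto (fun k => Pr b x (G ∩ EE b x θ k)) atTop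
      (𝓝 (Pr b x (⋂ k, G ∩ EE b x θ k))) := by
    apply tendsto_measure_iInter_atTop
    · exact fun k => (hGm.inter (measurableSet_EE hp.toPar _ _)).nullMeasurableSet
    · exact antitone_nat_of_succ_le fun k => Set.inter_subset_inter_right _ (EE_succ θ k)
    · exact ⟨0, measure_ne_top _ _⟩
  have hpos : ENNReal.ofReal (5 / 8) ≤ Pr b x (⋂ k, G ∩ EE b x θ k) :=
    ge_of_tendsto' hlim hlow'
  refine ⟨θ, fun h0 => ?_⟩
  have hsub : (⋂ k, G ∩ EE b x θ k) ⊆ {ω | ∃ t : ℝ, 0 < t ∧ X b x t ω ∈ setA b x θ} := by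
    intro ω hω
    rw [Set.mem_iInter] at hω
    exact exists_hit hp.toPar fun k => (hω k).2
  have h1 := hpos.trans ((measure_mono hsub).trans (le_of_eq h0))
  simp only [nonpos_iff_eq_zero, ENNReal.ofReal_eq_zero] at h1
  norm_num at h1

/-- for suitable shifts the set is not polar -/
lemma not_polar (hp : Par3 b x M) : ∃ θ : ℕ → ℝ,
    ¬ Polar (Pr b x) (fun (t : ℝ≥0) ω => X b x t ω) (setA b x θ) := by
  obtain ⟨θ, hθ⟩ := exists_shifts hp
  refine ⟨θ, fun hpol => hθ ?_⟩
  refine measure_mono_null ?_ (hpol 0)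
  rintro ω ⟨t, ht, hmem⟩
  show hit (fun (t : ℝ≥0) ω => X b x t ω) (setA b x θ) 0 ω < ∞
  unfold hit
  refine lt_of_le_of_lt (iInf₂_le ⟨t, ht.le⟩ ⟨by exact_mod_cast ht, ?_⟩) ENNReal.coe_lt_top
  show 0 + X b x t ω ∈ setA b x θ
  rw [zero_add]
  exact hmem

end Pool.Agent.Lib.MP_ee1e43_pr
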