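import Pool.Agent.Lib.MP_ee1e43_pr.Clock

/-!
# Law of the counts of a Poisson clock
-/

namespace Pool.Agent.Lib.MP_ee1e43_pr

open MeasureTheory ProbabilityTheory Filter Topology
open scoped NNReal ENNReal

/-- indicator of `p ≤ t` -/
noncomputable def ind (t p : ℝ) : ℝ := if p ≤ t then 1 else 0

/-- a linear combination of indicators of intervals -/
noncomputable def lin {n : ℕ} (t : Fin (n + 1) → ℝ) (θ : Fin n → ℝ) (p : ℝ) : ℝ :=
  ∑ l : Fin n, θ l * (ind (t l.succ) p - ind (t l.castSucc) p)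

lemma measurable_ind (t : ℝ) : Measurable (ind t) := by
  unfold ind
  exact Measurable.ite measurableSet_Iic measurable_const measurable_const

lemma measurable_lin {n : ℕ} (t : Fin (n + 1) → ℝ) (θ : Fin n → ℝ) : Measurable (lin t θ) := by
  unfold lin
  exact Finset.measurable_sum _ (fun l _ =>
    ((measurable_ind _).sub (measurable_ind _)).const_mul _)

/-- sum over the points of a clock with the blocks `0, ..., M-1` -/
noncomputable def psum (M : ℕ) (w : ℕ → Blk) (g : ℝ → ℝ) : ℝ :=
  ∑ n ∈ Finset.range M, ∑ j ∈ Finset.range (w n).1,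
    (if 0 < (w n).2 j then g (n + (w n).2 j) else 0)

lemma cnt_psum (w : ℕ → Blk) {t : ℝ} {M : ℕ} (hM : t ≤ M) : (cnt w t : ℝ) = psum M w (ind t) := by
  rw [cnt_eq w hM, psum]
  push_cast
  apply Finset.sum_congr rfl
  intro n _
  rw [Finset.card_filter]
  push_cast
  apply Finset.sum_congr rfl
  intro j _
  unfold ind
  split_ifs <;> simp_all

lemma cprod_exp (w : ℕ → Blk) {n : ℕ} (t : Fin (n + 1) → ℝ) (θ : Fin n → ℝ) {M : ℕ}
    (hM : ∀ l, t l ≤ M) :
    cprod (fun p => Complex.exp (Complex.I * lin t θ p)) M w =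
      Complex.exp (Complex.I * ∑ l : Fin n, θ l * ((cnt w (t l.succ) : ℝ) -
        (cnt w (t l.castSucc) : ℝ)) ) := by
  have h1 : cprod (fun p => Complex.exp (Complex.I * lin t θ p)) M w =
      Complex.exp (Complex.I * psum M w (lin t θ)) := by
    unfold cprod bprod psum
    push_cast
    rw [Finset.mul_sum, Complex.exp_sum]
    apply Finset.prod_congr rfl
    intro n _
    rw [Finset.mul_sum, Complex.exp_sum]
    apply Finset.prod_congr rfl
    intro j _
    unfold sh
    split_ifs <;> simp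
  have h2 : psum M w (lin t θ) = ∑ l : Fin n, θ l * ((cnt w (t l.succ) : ℝ) -
        (cnt w (t l.castSucc) : ℝ)) := by
    simp_rw [fun l : Fin (n+1) => cnt_psum w (hM l)]
    unfold psum lin
    simp_rw [← Finset.sum_sub_distrib, Finset.mul_sum]
    rw [Finset.sum_comm]
    apply Finset.sum_congr rfl
    intro k _
    rw [Finset.sum_comm]
    apply Finset.sum_congr rfl
    intro j _
    split_ifs
    · rfl
    · simp
  rw [h1, h2]

lemma ind_sub {s t : ℝ} (hst : s ≤ t) {p : ℝ} (h : ¬ (s < p ∧ p ≤ t)) : ind t p - ind s p = 0 := by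
  unfold ind
  rcases le_or_gt p s with h1 | h1
  · rw [if_pos (h1.trans hst), if_pos h1, sub_self]
  · rw [if_neg (fun h2 => h ⟨h1, h2⟩), if_neg (not_le.mpr h1), sub_self]

lemma exp_lin {n : ℕ} {t : Fin (n + 1) → ℝ} (ht : Monotone t) (θ : Fin n → ℝ) (p : ℝ) :
    Complex.exp (Complex.I * lin t θ p) - 1 =
      ∑ l : Fin n, (Complex.exp (Complex.I * θ l) - 1) *
        ((ind (t l.succ) p - ind (t l.castSucc) p : ℝ) : ℂ) := by
  have hle : ∀ l : Fin n, t l.castSucc ≤ t l.succ := fun l => ht (Fin.castSucc_le_succ l)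
  by_cases h : ∃ l : Fin n, t l.castSucc < p ∧ p ≤ t l.succ
  · obtain ⟨l0, h1, h2⟩ := h
    have h3 : ∀ l : Fin n, l ≠ l0 → ind (t l.succ) p - ind (t l.castSucc) p = 0 := by
      intro l hl
      apply ind_sub (hle l)
      rintro ⟨h4, h5⟩
      rcases lt_or_gt_of_ne hl with h6 | h6
      · have : t l.succ ≤ t l0.castSucc := ht (by
          rw [Fin.le_def, Fin.val_succ, Fin.val_castSucc]; exact h6)
        linarith
      · have : t l0.succ ≤ t l.castSucc := ht (by
          rw [Fin.le_def, Fin.val_succ, Fin.val_castSucc]; exact h6)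
        linarith
    have h4 : ind (t l0.succ) p - ind (t l0.castSucc) p = 1 := by
      unfold ind
      rw [if_pos h2, if_neg (not_le.mpr h1), sub_zero]
    have h5 : lin t θ p = θ l0 := by
      unfold lin
      rw [Finset.sum_eq_single l0]
      · rw [h4, mul_one]
      · intro l _ hl
        rw [h3 l hl, mul_zero]
      · intro h; exact absurd (Finset.mem_univ _) h
    rw [h5, Finset.sum_eq_single l0]
    · rw [h4]; simp
    · intro l _ hl
      rw [h3 l hl]; simp
    · intro h; exact absurd (Finset.mem_univ _) h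
  · push Not at h
    have h3 : ∀ l : Fin n, ind (t l.succ) p - ind (t l.castSucc) p = 0 := by
      intro l
      apply ind_sub (hle l)
      rintro ⟨h4, h5⟩
      exact absurd h5 (not_le.mpr (h l h4))
    have h5 : lin t θ p = 0 := by
      unfold lin
      apply Finset.sum_eq_zero
      intro l _
      rw [h3 l, mul_zero]
    rw [h5]
    simp only [h3]
    simp

lemma integral_ind {t : ℝ} {M : ℕ} (h0 : 0 ≤ t) (hM : t ≤ M) :
    ∫ p in (0:ℝ)..M, ind t p = t := by
  rw [intervalIntegral.integral_of_le (Nat.cast_nonneg M)]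
  have h1 : ind t = (Set.Iic t).indicator (fun _ => (1:ℝ)) := by
    ext p
    simp [ind, Set.indicator]
  rw [h1, setIntegral_indicator measurableSet_Iic, setIntegral_const]
  have h2 : Set.Ioc (0:ℝ) M ∩ Set.Iic t = Set.Ioc 0 t := by
    ext p
    simp only [Set.mem_inter_iff, Set.mem_Ioc, Set.mem_Iic]
    constructor
    · rintro ⟨⟨h3, _⟩, h4⟩; exact ⟨h3, h4⟩
    · rintro ⟨h3, h4⟩; exact ⟨⟨h3, h4.trans hM⟩, h4⟩
  rw [h2]
  simp [Measure.real, h0]

lemma intervalIntegrable_ind (t : ℝ) (a b : ℝ) : IntervalIntegrable (ind t) volume a b := by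
  have h : ∀ p, ‖ind t p‖ ≤ 1 := by
    intro p; unfold ind; split_ifs <;> simp
  constructor
  · exact Integrable.mono' (g := fun _ => (1:ℝ)) (by simp)
      (measurable_ind t).aestronglyMeasurable (ae_of_all _ h)
  · exact Integrable.mono' (g := fun _ => (1:ℝ)) (by simp)
      (measurable_ind t).aestronglyMeasurable (ae_of_all _ h)

lemma integral_lin {n : ℕ} {t : Fin (n + 1) → ℝ} (ht : Monotone t) (h0 : 0 ≤ t 0)
    (θ : Fin n → ℝ) {M : ℕ} (hM : ∀ l, t l ≤ M) :
    ∫ p in (0:ℝ)..M, (Complex.exp (Complex.I * lin t θ p) - 1) =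
      ∑ l : Fin n, ((t l.succ - t l.castSucc : ℝ) : ℂ) * (Complex.exp (Complex.I * θ l) - 1) := by
  simp_rw [exp_lin ht]
  have hp : ∀ l, 0 ≤ t l := fun l => h0.trans (ht (Fin.zero_le l))
  have hii : ∀ l : Fin n, IntervalIntegrable
      (fun p => ind (t l.succ) p - ind (t l.castSucc) p) volume 0 M := fun l =>
    (intervalIntegrable_ind _ _ _).sub (intervalIntegrable_ind _ _ _)
  rw [intervalIntegral.integral_finsetSum]
  · apply Finset.sum_congr rfl
    intro l _
    rw [intervalIntegral.integral_const_mul, intervalIntegral.integral_ofReal,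
      intervalIntegral.integral_sub (intervalIntegrable_ind _ _ _) (intervalIntegrable_ind _ _ _),
      integral_ind (hp _) (hM _), integral_ind (hp _) (hM _)]
    ring
  · intro l _
    have h : IntervalIntegrable
        (fun p => ((ind (t l.succ) p - ind (t l.castSucc) p : ℝ) : ℂ)) volume 0 M :=
      ⟨(hii l).1.ofReal, (hii l).2.ofReal⟩
    exact h.const_mul _

lemma norm_exp_lin {n : ℕ} (t : Fin (n + 1) → ℝ) (θ : Fin n → ℝ) (p : ℝ) :
    ‖Complex.exp (Complex.I * lin t θ p)‖ ≤ 1 := by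
  rw [mul_comm, Complex.norm_exp_ofReal_mul_I]

lemma measurable_exp_lin {n : ℕ} (t : Fin (n + 1) → ℝ) (θ : Fin n → ℝ) :
    Measurable (fun p => Complex.exp (Complex.I * lin t θ p)) :=
  Complex.measurable_exp.comp ((Complex.measurable_ofReal.comp (measurable_lin t θ)).const_mul _)

/-- joint characteristic function of the increments of one clock -/
lemma integral_exp_cnt (m : ℝ≥0) {n : ℕ} {t : Fin (n + 1) → ℝ} (ht : Monotone t) (h0 : 0 ≤ t 0)
    (θ : Fin n → ℝ) :
    ∫ w, Complex.exp (Complex.I * ∑ l : Fin n, θ l * ((cnt w (t l.succ) : ℝ) -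
        (cnt w (t l.castSucc) : ℝ))) ∂(clk m) =
      Complex.exp ((m : ℝ) * ∑ l : Fin n, ((t l.succ - t l.castSucc : ℝ) : ℂ) *
        (Complex.exp (Complex.I * θ l) - 1)) := by
  obtain ⟨M, hM⟩ := exists_nat_ge (t (Fin.last n))
  have hM' : ∀ l, t l ≤ M := fun l => (ht (Fin.le_last l)).trans hM
  rw [← integral_lin ht h0 θ hM', ← integral_cprod (measurable_exp_lin t θ) (norm_exp_lin t θ) m M]
  apply integral_congr_ae
  apply ae_of_all
  intro w
  simp only
  rw [cprod_exp w t θ hM']

/-- the increments of a clock have a Poisson law -/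
lemma map_cnt (m : ℝ≥0) {s r : ℝ} (hs : 0 ≤ s) (hr : 0 ≤ r) :
    (clk m).map (fun w => (cnt w (s + r) : ℝ) - (cnt w s : ℝ)) =
      (poissonMeasure (m * r.toNNReal)).map (Nat.cast : ℕ → ℝ) := by
  have hm : Measurable (fun w : ℕ → Blk => (cnt w (s + r) : ℝ) - (cnt w s : ℝ)) :=
    (measurable_from_nat.comp (measurable_cnt (s + r))).sub
      (measurable_from_nat.comp (measurable_cnt s))
  have : IsProbabilityMeasure ((clk m).map (fun w => (cnt w (s + r) : ℝ) - (cnt w s : ℝ))) :=
    Measure.isProbabilityMeasure_map hm.aemeasurable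
  apply Measure.ext_of_charFun
  ext θ
  rw [charFun_map_cast_poissonMeasure, charFun_apply_real, integral_map hm.aemeasurable
    (by fun_prop)]
  have ht : Monotone (![s, s + r] : Fin 2 → ℝ) := by
    intro a b hab
    fin_cases a <;> fin_cases b <;> simp_all
  have h1 := integral_exp_cnt m ht (by simpa using hs) (fun _ : Fin 1 => θ)
  simp only [Fin.sum_univ_one, Fin.isValue, Fin.succ_zero_eq_one, Matrix.cons_val_one,
    Matrix.cons_val_fin_one, Fin.castSucc_zero, Matrix.cons_val_zero] at h1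
  have h2 : ∀ w : ℕ → Blk, Complex.exp (θ * ((cnt w (s + r) : ℝ) - (cnt w s : ℝ) : ℝ) * Complex.I) =
      Complex.exp (Complex.I * ((θ * ((cnt w (s + r) : ℝ) - (cnt w s : ℝ)) : ℝ) : ℂ)) := by
    intro w
    congr 1
    push_cast
    ring
  simp_rw [h2]
  rw [h1]
  congr 1
  push_cast
  rw [Real.coe_toNNReal r hr]
  rw [show (θ:ℂ) * Complex.I = Complex.I * θ by ring]
  ring

/-- first and second factorial moments -/
lemma hasSum_poisson_one (r : ℝ≥0) :
    HasSum (fun n : ℕ => Real.exp (-r) * r ^ n / (n.factorial : ℝ) * n) r := by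
  have h := (hasSum_one_poissonMeasure r).mul_left (r : ℝ)
  rw [mul_one] at h
  rw [← hasSum_nat_add_iff' 1]
  simp only [Finset.range_one, Finset.sum_singleton, CharP.cast_eq_zero, mul_zero, sub_zero]
  convert! h using 1
  ext n
  have : ((n + 1).factorial : ℝ) = (n + 1) * n.factorial := by
    rw [Nat.factorial_succ]; push_cast; ring
  rw [this, pow_succ]
  have h2 : (n.factorial : ℝ) ≠ 0 := by positivity
  have h3 : (n + 1 : ℝ) ≠ 0 := by positivity
  push_cast
  field_simp

lemma hasSum_poisson_two (r : ℝ≥0) :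
    HasSum (fun n : ℕ => Real.exp (-r) * r ^ n / (n.factorial : ℝ) * (n * (n - 1))) (r ^ 2) := by
  have h := (hasSum_poisson_one r).mul_left (r : ℝ)
  rw [← pow_two] at h
  rw [← hasSum_nat_add_iff' 1]
  simp only [Finset.range_one, Finset.sum_singleton, CharP.cast_eq_zero, mul_zero, sub_zero,
    zero_mul]
  convert! h using 1
  ext n
  have : ((n + 1).factorial : ℝ) = (n + 1) * n.factorial := by
    rw [Nat.factorial_succ]; push_cast; ring
  rw [this, pow_succ]
  have h2 : (n.factorial : ℝ) ≠ 0 := by positivity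
  have h3 : (n + 1 : ℝ) ≠ 0 := by positivity
  push_cast
  field_simp
  ring

lemma hasSum_poisson_var (r : ℝ≥0) :
    HasSum (fun n : ℕ => Real.exp (-r) * r ^ n / (n.factorial : ℝ) * (n - r) ^ 2) r := by
  have h := ((hasSum_poisson_two r).add ((hasSum_poisson_one r).mul_left (1 - 2 * (r:ℝ)))).add
    ((hasSum_one_poissonMeasure r).mul_left ((r:ℝ) ^ 2))
  convert! h using 1
  · ext n; ring
  · ring

lemma poisson_cheb (r : ℝ≥0) {l : ℝ} (hl : 0 < l) :
    poissonMeasure r {n | l < |(n : ℝ) - r|} ≤ ENNReal.ofReal (r / l ^ 2) := by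
  have h1 : Integrable (fun n : ℕ => ((n : ℝ) - r) ^ 2) (poissonMeasure r) := by
    rw [integrable_poissonMeasure_iff]
    refine (hasSum_poisson_var r).summable.congr (fun n => ?_)
    rw [Real.norm_of_nonneg (by positivity)]
  have h2 : ∫ n : ℕ, ((n : ℝ) - r) ^ 2 ∂(poissonMeasure r) = r := by
    rw [integral_poissonMeasure' h1]
    simp only [smul_eq_mul]
    exact (hasSum_poisson_var r).tsum_eq
  have h3 : ∫⁻ n : ℕ, ENNReal.ofReal (((n : ℝ) - r) ^ 2) ∂(poissonMeasure r) =
      ENNReal.ofReal r := by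
    rw [← ofReal_integral_eq_lintegral_ofReal h1 (ae_of_all _ fun n => by positivity), h2]
  have h4 := mul_meas_ge_le_lintegral₀ (μ := poissonMeasure r)
    (f := fun n : ℕ => ENNReal.ofReal (((n : ℝ) - r) ^ 2)) (by fun_prop) (ENNReal.ofReal (l ^ 2))
  rw [h3] at h4
  have h5 : {n : ℕ | l < |(n : ℝ) - r|} ⊆
      {n : ℕ | ENNReal.ofReal (l ^ 2) ≤ ENNReal.ofReal (((n : ℝ) - r) ^ 2)} := by
    intro n hn
    simp only [Set.mem_ofPred_eq] at hn ⊢
    apply ENNReal.ofReal_le_ofReal
    rw [← sq_abs ((n:ℝ) - r)]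
    exact pow_le_pow_left₀ hl.le hn.le 2
  calc poissonMeasure r {n | l < |(n : ℝ) - r|}
      ≤ poissonMeasure r {n : ℕ | ENNReal.ofReal (l ^ 2) ≤
          ENNReal.ofReal (((n : ℝ) - r) ^ 2)} := measure_mono h5
    _ ≤ ENNReal.ofReal r / ENNReal.ofReal (l ^ 2) := by
        rw [ENNReal.le_div_iff_mul_le]
        · rw [mul_comm]; exact h4
        · left; simp; positivity
        · left; simp
    _ = ENNReal.ofReal (r / l ^ 2) := by
        rw [ENNReal.ofReal_div_of_pos (by positivity)]

/-- Chebyshev's inequality for the increments of a clock -/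
lemma cnt_cheb (m : ℝ≥0) {s r l : ℝ} (hs : 0 ≤ s) (hr : 0 ≤ r) (hl : 0 < l) :
    clk m {w | l < |(cnt w (s + r) : ℝ) - cnt w s - m * r|} ≤ ENNReal.ofReal (m * r / l ^ 2) := by
  have hm : Measurable (fun w : ℕ → Blk => (cnt w (s + r) : ℝ) - (cnt w s : ℝ)) :=
    (measurable_from_nat.comp (measurable_cnt (s + r))).sub
      (measurable_from_nat.comp (measurable_cnt s))
  have hS : MeasurableSet {x : ℝ | l < |x - m * r|} :=
    measurableSet_lt measurable_const (by fun_prop)
  have h1 : clk m {w | l < |(cnt w (s + r) : ℝ) - cnt w s - m * r|} =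
      ((clk m).map (fun w => (cnt w (s + r) : ℝ) - (cnt w s : ℝ))) {x : ℝ | l < |x - m * r|} := by
    rw [Measure.map_apply hm hS]
    rfl
  rw [h1, map_cnt m hs hr, Measure.map_apply measurable_from_nat hS]
  have h2 := poisson_cheb (m * r.toNNReal) hl
  have h3 : ((m * r.toNNReal : ℝ≥0) : ℝ) = m * r := by
    rw [NNReal.coe_mul, Real.coe_toNNReal r hr]
  rw [h3] at h2
  exact h2

end Pool.Agent.Lib.MP_ee1e43_pr
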