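import Pool.Agent.Lib.MP_ee1e43_pr.Cover

/-!
# One level: most shifts are good, on an event of large probability
-/

namespace Pool.Agent.Lib.MP_ee1e43_pr

open MeasureTheory ProbabilityTheory Filter Topology
open scoped NNReal ENNReal

variable (b x : ℕ → ℝ)

/-- mesh of the shifts of level `k` -/
noncomputable def aa (k : ℕ) : ℝ := eta (k + 1) * ell b x k / 4

/-- mesh of the grid of times of level `k` -/
noncomputable def del (k : ℕ) : ℝ := aa b x k * (1 + 2 * kap k) / b k

/-- length of the time intervals of level `k` -/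
noncomputable def Len (k : ℕ) : ℝ := (1 - 2 * eta k) * T b x k

/-- time horizon -/
noncomputable def Hor : ℝ := 2 * T b x 0

/-- number of grid times before the horizon -/
noncomputable def ng (k : ℕ) : ℕ := ⌊Hor b x / del b x k⌋₊ + 1

/-- bound for the probability that a grid time is bad -/
noncomputable def pbad (k : ℕ) : ℝ :=
  4096 * del b x k ^ 2 * x (k + 1) / aa b x k ^ 3 +
    32768 * x (k + 1) / (kap k ^ 3 * b k ^ 3 * del b x k)

/-- further conditions on the parameters -/
structure Par3 (M : ℕ → ℕ) : Prop extends Par2 b x where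
  mul : ∀ k, x k = M k * aa b x k
  glob : ∀ k, 4096 * Hor b x ^ 2 * x (k + 1) / (eta k / 4 * x k) ^ 3 ≤ (1 / 2) ^ (k + 4)
  loc : ∀ k, ng b x k * pbad b x k ≤ (1 / 2) ^ (k + 4) * (kap k * M k)

/-- bad sample points for the grid time `i δ` -/
def badI (k i : ℕ) : Set Sp :=
  {ω | ω ∈ G0 b x ∧ ∃ r ∈ Set.Icc 0 (del b x k),
    aa b x k < |Y b x k (i * del b x k + r) ω - Y b x k (i * del b x k) ω - b k * r|} ∪
  {ω | ω ∈ G0 b x ∧ ∃ r, del b x k ≤ r ∧
    kap k * b k * r < |Y b x k (i * del b x k + r) ω - Y b x k (i * del b x k) ω - b k * r|}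

/-- globally bad sample points -/
def badG (k : ℕ) : Set Sp :=
  {ω | ω ∈ G0 b x ∧ ∃ r ∈ Set.Icc 0 (Hor b x),
    eta k / 4 * x k < |Y b x k (0 + r) ω - Y b x k 0 ω - b k * r|}

open Classical in
/-- sample points with too many bad grid times -/
noncomputable def badN (M : ℕ → ℕ) (k : ℕ) : Set Sp :=
  {ω | ⌊kap k * M k⌋₊ < ((Finset.range (ng b x k)).filter (fun i => ω ∈ badI b x k i)).card}

variable {b x}

lemma aa_pos (hp : Par b x) (k : ℕ) : 0 < aa b x k := by
  unfold aa
  have := eta_pos (k + 1)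
  have := ell_pos hp k
  positivity

lemma del_pos (hp : Par b x) (k : ℕ) : 0 < del b x k := by
  unfold del
  have := aa_pos hp k
  have := kap_pos k
  have := hp.bpos k
  positivity

lemma bdel (hp : Par b x) (k : ℕ) : b k * del b x k = aa b x k * (1 + 2 * kap k) := by
  unfold del
  have := (hp.bpos k).ne'
  field_simp

lemma aa_le_del (hp : Par b x) (k : ℕ) : aa b x k ≤ del b x k := by
  have h1 := bdel hp k
  have h2 := hp.bone k
  have h3 := del_pos hp k
  have h4 := aa_pos hp k
  have h5 := kap_pos k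
  nlinarith [mul_pos h4 h5]

lemma Len_pos (hp : Par b x) (k : ℕ) : 0 < Len b x k := by
  unfold Len
  have := eta_le k
  exact mul_pos (by linarith) (T_pos hp k)

lemma bLen (hp : Par b x) (k : ℕ) : b k * Len b x k = (1 - 2 * eta k) * x k := by
  unfold Len
  rw [← bT hp k]; ring

lemma bLen' (k : ℕ) : b k * Len b x (k + 1) = (1 - 2 * eta (k + 1)) * ell b x k := by
  unfold Len ell
  ring

lemma x0_le (hp : Par b x) (k : ℕ) : x k ≤ x 0 := by
  induction k with
  | zero => exact le_rfl
  | succ k ih =>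
    have := hp.xdec k
    have := hp.xpos k
    linarith

lemma x0_le_T (hp : Par b x) : x 0 ≤ T b x 0 := by
  have := bT hp 0
  have := hp.bone 0
  have := T_pos hp 0
  nlinarith

lemma Hor_pos (hp : Par b x) : 0 < Hor b x := by
  unfold Hor
  have := T_pos hp 0
  positivity

variable {M : ℕ → ℕ}

lemma M_pos (hp : Par3 b x M) (k : ℕ) : 0 < M k := by
  rcases Nat.eq_zero_or_pos (M k) with h | h
  · have := hp.mul k
    rw [h] at this
    simp only [CharP.cast_eq_zero, zero_mul] at this
    exact absurd this (hp.xpos k).ne'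
  · exact h

lemma measure_badG (hp : Par3 b x M) (k : ℕ) :
    Pr b x (badG b x k) ≤ ENNReal.ofReal ((1 / 2) ^ (k + 4)) := by
  have h1 := eta_pos k
  have h2 := eta_le k
  have h3 := hp.xpos k
  have h4 := x0_le hp.toPar k
  have h5 := x0_le_T hp.toPar
  have h6 : eta k / 4 * x k ≤ Hor b x := by
    unfold Hor
    have : eta k / 4 * x k ≤ 1 * x k := mul_le_mul_of_nonneg_right (by linarith) h3.le
    linarith
  exact (Y_sup hp.toPar k le_rfl (by positivity) h6).trans (ENNReal.ofReal_le_ofReal (hp.glob k))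

lemma pbad_nonneg (hp : Par b x) (k : ℕ) : 0 ≤ pbad b x k := by
  unfold pbad
  have := aa_pos hp k
  have := del_pos hp k
  have := kap_pos k
  have := hp.bpos k
  have := hp.xpos (k + 1)
  positivity

lemma measure_badI (hp : Par b x) (k i : ℕ) :
    Pr b x (badI b x k i) ≤ ENNReal.ofReal (pbad b x k) := by
  have h1 := aa_pos hp k
  have h2 := del_pos hp k
  have h3 := kap_pos k
  have h4 := hp.bpos k
  have h5 := hp.xpos (k + 1)
  unfold badI pbad
  refine (measure_union_le _ _).trans ?_
  rw [ENNReal.ofReal_add (by positivity) (by positivity)]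
  exact add_le_add (Y_sup hp k (by positivity) h1 (aa_le_del hp k))
    (Y_long hp k (by positivity) h2 h3 ((kap_le k).trans (by norm_num)))

lemma measure_badN (hp : Par3 b x M) (k : ℕ) :
    Pr b x (badN b x M k) ≤ ENNReal.ofReal ((1 / 2) ^ (k + 4)) := by
  classical
  set A : ℕ → Set Sp := fun i => toMeasurable (Pr b x) (badI b x k i) with hA
  have hAm : ∀ i, MeasurableSet (A i) := fun i => measurableSet_toMeasurable _ _
  set f : Sp → ℝ≥0∞ := fun ω => ∑ i ∈ Finset.range (ng b x k), (A i).indicator (fun _ => 1) ω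
    with hf
  have hfm : Measurable f :=
    Finset.measurable_sum _ fun i _ => measurable_const.indicator (hAm i)
  have hint : ∫⁻ ω, f ω ∂(Pr b x) ≤ ENNReal.ofReal ((1 / 2) ^ (k + 4) * (kap k * M k)) := by
    rw [hf, lintegral_finsetSum _ fun i _ => measurable_const.indicator (hAm i)]
    have h1 : ∀ i ∈ Finset.range (ng b x k),
        ∫⁻ ω, (A i).indicator (fun _ => 1) ω ∂(Pr b x) ≤ ENNReal.ofReal (pbad b x k) := by
      intro i _
      rw [lintegral_indicator (hAm i), setLIntegral_one, hA, measure_toMeasurable]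
      exact measure_badI hp.toPar k i
    refine (Finset.sum_le_sum h1).trans ?_
    rw [Finset.sum_const, Finset.card_range, nsmul_eq_mul, ← ENNReal.ofReal_natCast,
      ← ENNReal.ofReal_mul (by positivity)]
    exact ENNReal.ofReal_le_ofReal (hp.loc k)
  have hkM : 0 < kap k * M k := mul_pos (kap_pos k) (by exact_mod_cast M_pos hp k)
  have hsub : badN b x M k ⊆ {ω | ENNReal.ofReal (kap k * M k) ≤ f ω} := by
    intro ω hω
    have h1 : ⌊kap k * M k⌋₊ <
      ((Finset.range (ng b x k)).filter (fun i => ω ∈ badI b x k i)).card := hω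
    have h2 : kap k * M k <
      (((Finset.range (ng b x k)).filter (fun i => ω ∈ badI b x k i)).card : ℝ) :=
      (Nat.floor_lt hkM.le).mp h1
    have h3 : ((((Finset.range (ng b x k)).filter (fun i => ω ∈ badI b x k i)).card : ℕ) : ℝ≥0∞) ≤
        f ω := by
      rw [Finset.card_filter, hf]
      push_cast
      apply Finset.sum_le_sum
      intro i _
      by_cases hi : ω ∈ badI b x k i
      · rw [if_pos hi, Set.indicator_of_mem (subset_toMeasurable _ _ hi)]
      · rw [if_neg hi]; exact zero_le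
    refine le_trans ?_ h3
    rw [← ENNReal.ofReal_natCast]
    exact ENNReal.ofReal_le_ofReal h2.le
  have hmark := mul_meas_ge_le_lintegral₀ (μ := Pr b x) hfm.aemeasurable
    (ENNReal.ofReal (kap k * M k))
  have h0 : ENNReal.ofReal (kap k * M k) ≠ 0 := by
    simp only [ne_eq, ENNReal.ofReal_eq_zero, not_le]; exact hkM
  calc Pr b x (badN b x M k) ≤ Pr b x {ω | ENNReal.ofReal (kap k * M k) ≤ f ω} :=
        measure_mono hsub
    _ ≤ ENNReal.ofReal ((1 / 2) ^ (k + 4)) := by
        have h1 := hmark.trans hint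
        rw [mul_comm ((1 / 2 : ℝ) ^ (k + 4)), ENNReal.ofReal_mul hkM.le] at h1
        exact (ENNReal.mul_le_mul_iff_right h0 ENNReal.ofReal_ne_top).mp h1

/-- consequences for a good grid time: local control -/
lemma good_local (hp : Par b x) {k i : ℕ} {ω : Sp} (hG : ω ∈ G0 b x) (hi : ω ∉ badI b x k i)
    {r : ℝ} (h0 : 0 ≤ r) (hr : r ≤ Len b x (k + 1)) :
    |Y b x k (i * del b x k + r) ω - Y b x k (i * del b x k) ω - b k * r| ≤ aa b x k := by
  have h1 := aa_pos hp k
  have h2 := del_pos hp k
  have h3 := kap_pos k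
  have h4 := hp.bpos k
  by_contra hcon
  rw [not_le] at hcon
  apply hi
  rcases le_total r (del b x k) with h | h
  · left
    exact ⟨hG, r, ⟨h0, h⟩, hcon⟩
  · right
    refine ⟨hG, r, h, lt_of_le_of_lt ?_ hcon⟩
    have h5 : b k * r ≤ ell b x k := by
      calc b k * r ≤ b k * Len b x (k + 1) := mul_le_mul_of_nonneg_left hr h4.le
        _ = (1 - 2 * eta (k + 1)) * ell b x k := bLen' k
        _ ≤ ell b x k := by
            have := eta_pos (k + 1)
            have := ell_pos hp k
            nlinarith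
    calc kap k * b k * r = kap k * (b k * r) := by ring
      _ ≤ kap k * ell b x k := mul_le_mul_of_nonneg_left h5 h3.le
      _ = aa b x k := by unfold kap aa; ring

/-- consequences for a good grid time: the later positions are further ahead -/
lemma good_later (hp : Par b x) {k i j : ℕ} {ω : Sp} (hG : ω ∈ G0 b x) (hi : ω ∉ badI b x k i)
    (hij : i < j) :
    aa b x k ≤ Y b x k (j * del b x k) ω - Y b x k (i * del b x k) ω := by
  have h1 := aa_pos hp k
  have h2 := del_pos hp k
  have h3 := kap_pos k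
  have h3' := kap_le k
  have h4 := hp.bpos k
  set r : ℝ := (j - i) * del b x k with hr
  have hji : (1:ℝ) ≤ (j:ℝ) - i := by
    have : ((i + 1 : ℕ) : ℝ) ≤ j := by exact_mod_cast hij
    push_cast at this
    linarith
  have hr1 : del b x k ≤ r := by rw [hr]; nlinarith
  have h5 : |Y b x k (i * del b x k + r) ω - Y b x k (i * del b x k) ω - b k * r| ≤
      kap k * b k * r := by
    by_contra hcon
    rw [not_le] at hcon
    exact hi (Or.inr ⟨hG, r, hr1, hcon⟩)
  have h6 : (i : ℝ) * del b x k + r = j * del b x k := by rw [hr]; ring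
  rw [h6, abs_le] at h5
  have h7 : aa b x k * (1 + 2 * kap k) ≤ b k * r := by
    rw [← bdel hp k]; exact mul_le_mul_of_nonneg_left hr1 h4.le
  have h8 : aa b x k ≤ (1 - kap k) * (aa b x k * (1 + 2 * kap k)) := by
    have : (1:ℝ) ≤ (1 - kap k) * (1 + 2 * kap k) := by nlinarith
    nlinarith
  have h9 : (1 - kap k) * (aa b x k * (1 + 2 * kap k)) ≤ (1 - kap k) * (b k * r) :=
    mul_le_mul_of_nonneg_left h7 (by linarith)
  nlinarith [h5.1]

/-- global control -/
lemma good_global (hp : Par2 b x) {k : ℕ} {ω : Sp} (hG : ω ∈ G0 b x) (hg : ω ∉ badG b x k)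
    {s t t' : ℝ} (hs : 0 ≤ s) (hH : s + Len b x k ≤ Hor b x) (h1 : s ≤ t) (_h2 : t ≤ s + Len b x k)
    (_h3 : s ≤ t') (h4 : t' ≤ s + Len b x k) :
    Y b x k t' ω - Y b x k t ω ≤ x k - aa b x k := by
  have hb := hp.bpos k
  have h5 : ∀ u, 0 ≤ u → u ≤ Hor b x → |Y b x k u ω - b k * u| ≤ eta k / 4 * x k := by
    intro u hu0 hu1
    by_contra hcon
    rw [not_le] at hcon
    apply hg
    refine ⟨hG, u, ⟨hu0, hu1⟩, ?_⟩
    rw [zero_add, Y_zero, sub_zero]
    exact hcon
  have h6 := h5 t (hs.trans h1) (by linarith)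
  have h7 := h5 t' (hs.trans _h3) (by linarith)
  rw [abs_le] at h6 h7
  have h8 : b k * (t' - t) ≤ (1 - 2 * eta k) * x k := by
    rw [← bLen hp.toPar k]
    exact mul_le_mul_of_nonneg_left (by linarith) hb.le
  have h9 : aa b x k ≤ eta k * x k / 8 := by
    refine le_trans ?_ (hp.ell_le k)
    unfold aa
    have := eta_pos (k + 1)
    have := eta_le (k + 1)
    have := ell_pos hp.toPar k
    nlinarith
  have h10 : 0 < eta k * x k := mul_pos (eta_pos k) (hp.xpos k)
  nlinarith [h6.1, h7.2]

lemma numeric (hp : Par3 b x M) (k : ℕ) :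
    (1 - 4 * eta k) * M k ≤
      (Len b x k - Len b x (k + 1)) / del b x k - 1 - (⌊kap k * M k⌋₊ : ℝ) := by
  have h1 := aa_pos hp.toPar k
  have h2 := del_pos hp.toPar k
  have h3 := kap_pos k
  have h4 := hp.bpos k
  have he := eta_pos k
  have he' := eta_pos (k + 1)
  have hes := eta_succ k
  have hel := eta_le k
  have hl := ell_pos hp.toPar k
  have hM : (0:ℝ) < M k := by exact_mod_cast M_pos hp k
  have h5 : (⌊kap k * M k⌋₊ : ℝ) ≤ kap k * M k := Nat.floor_le (by positivity)
  have h6 : Len b x k / del b x k = (1 - 2 * eta k) * M k / (1 + 2 * kap k) := by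
    rw [div_eq_div_iff h2.ne' (by positivity)]
    have e1 := bLen hp.toPar k
    have e2 := bdel hp.toPar k
    have e3 := hp.mul k
    have : b k * (Len b x k * (1 + 2 * kap k)) =
        b k * ((1 - 2 * eta k) * M k * del b x k) := by
      calc b k * (Len b x k * (1 + 2 * kap k)) = (b k * Len b x k) * (1 + 2 * kap k) := by ring
        _ = (1 - 2 * eta k) * (M k * aa b x k) * (1 + 2 * kap k) := by rw [e1, ← e3]
        _ = (1 - 2 * eta k) * M k * (b k * del b x k) := by rw [e2]; ring
        _ = b k * ((1 - 2 * eta k) * M k * del b x k) := by ring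
    exact mul_left_cancel₀ h4.ne' this
  have h7 : Len b x (k + 1) / del b x k ≤ 4 / eta (k + 1) := by
    rw [div_le_div_iff₀ h2 he']
    have e1 := bLen' (b := b) (x := x) k
    have e2 := bdel hp.toPar k
    have e3 : b k * (Len b x (k + 1) * eta (k + 1)) ≤ b k * (4 * del b x k) := by
      calc b k * (Len b x (k + 1) * eta (k + 1)) = (b k * Len b x (k + 1)) * eta (k + 1) := by ring
        _ = (1 - 2 * eta (k + 1)) * (eta (k + 1) * ell b x k) := by rw [e1]; ring
        _ ≤ 1 * (eta (k + 1) * ell b x k) := by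
            apply mul_le_mul_of_nonneg_right (by linarith) (by positivity)
        _ = 4 * aa b x k := by unfold aa; ring
        _ ≤ 4 * (aa b x k * (1 + 2 * kap k)) := by nlinarith [mul_pos h1 h3]
        _ = b k * (4 * del b x k) := by rw [← e2]; ring
    exact le_of_mul_le_mul_left e3 h4
  have h8 : (1 - 2 * eta k - 2 * kap k) * M k ≤ (1 - 2 * eta k) * M k / (1 + 2 * kap k) := by
    rw [le_div_iff₀ (by positivity)]
    have : (1 - 2 * eta k - 2 * kap k) * (1 + 2 * kap k) ≤ 1 - 2 * eta k := by nlinarith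
    calc (1 - 2 * eta k - 2 * kap k) * M k * (1 + 2 * kap k) =
          (1 - 2 * eta k - 2 * kap k) * (1 + 2 * kap k) * M k := by ring
      _ ≤ (1 - 2 * eta k) * M k := mul_le_mul_of_nonneg_right this hM.le
  -- `M k` is large
  have h9 : 32 / eta (k + 1) ≤ eta k * M k := by
    have e1 := hp.mul k
    have e2 := hp.ell_le k
    rw [div_le_iff₀ he']
    have e4 : 32 * aa b x k ≤ (eta k * M k * eta (k + 1)) * aa b x k := by
      have : 32 * aa b x k = 8 * eta (k + 1) * ell b x k := by unfold aa; ring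
      rw [this]
      calc 8 * eta (k + 1) * ell b x k ≤ 8 * eta (k + 1) * (eta k * x k / 8) := by
            apply mul_le_mul_of_nonneg_left e2 (by positivity)
        _ = eta (k + 1) * eta k * x k := by ring
        _ = (eta k * M k * eta (k + 1)) * aa b x k := by rw [e1]; ring
    exact le_of_mul_le_mul_right e4 h1
  have h10 : 1 ≤ 28 / eta (k + 1) := by
    rw [le_div_iff₀ he']
    have := eta_le (k + 1)
    linarith
  have h11 : 4 / eta (k + 1) + 28 / eta (k + 1) = 32 / eta (k + 1) := by ring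
  have hk : kap k = eta k / 8 := by unfold kap; rw [hes]; ring
  rw [sub_div, h6]
  have h12 : 0 < eta k * M k := by positivity
  rw [hk] at h5 h8 ⊢
  rw [hk] at *
  nlinarith

open Classical in
/-- on the good event most shifts are passed at a good time -/
lemma level_cover (hp : Par3 b x M) {k : ℕ} {ω : Sp} (hG : ω ∈ G0 b x) (hg : ω ∉ badG b x k)
    (hN : ω ∉ badN b x M k) {s : ℝ} (hs : 0 ≤ s) (hH : s + Len b x k ≤ Hor b x) :
    (1 - 4 * eta k) * M k ≤ (((Finset.range (M k)).filter (fun θ : ℕ => ∃ i < ng b x k,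
      s ≤ i * del b x k ∧ i * del b x k + Len b x (k + 1) ≤ s + Len b x k ∧
      ∀ r ∈ Set.Icc 0 (Len b x (k + 1)),
        Win b x k (θ * aa b x k) (X b x (i * del b x k + r) ω))).card : ℝ) := by
  have h1 := aa_pos hp.toPar k
  have h2 := del_pos hp.toPar k
  have hn : s + Len b x k < ng b x k * del b x k := by
    refine lt_of_le_of_lt hH ?_
    unfold ng
    have := Nat.lt_floor_add_one (Hor b x / del b x k)
    rw [div_lt_iff₀ h2] at this
    push_cast
    exact this
  have hNb : ((Finset.range (ng b x k)).filter (fun i => ω ∈ badI b x k i)).card ≤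
      ⌊kap k * M k⌋₊ := by
    by_contra hcon
    exact hN (not_le.mp hcon)
  have hc := cover (v := fun i => Y b x k (i * del b x k) ω) (a := aa b x k) (δ := del b x k)
    (s := s) (L := Len b x k) (L' := Len b x (k + 1)) (M := M k) (n := ng b x k)
    (N := ⌊kap k * M k⌋₊) (B := fun i => ω ∈ badI b x k i) h1 (M_pos hp k) h2 hs hn
    (Len_pos hp.toPar _).le
    (fun i _ hi j _ hij => good_later hp.toPar hG hi hij)
    (fun i _ j _ e1 e2 e3 e4 => by
      rw [← hp.mul k]
      exact good_global hp.toPar2 hG hg hs hH e1 e2 e3 e4) hNb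
  refine (numeric hp k).trans (hc.trans ?_)
  have : ((Finset.range (M k)).filter (fun θ : ℕ => ∃ i < ng b x k, ¬ ω ∈ badI b x k i ∧
      s ≤ i * del b x k ∧ i * del b x k + Len b x (k + 1) ≤ s + Len b x k ∧
      shiftIdx (aa b x k) (M k) (Y b x k (i * del b x k) ω) = θ)) ⊆
      ((Finset.range (M k)).filter (fun θ : ℕ => ∃ i < ng b x k,
      s ≤ i * del b x k ∧ i * del b x k + Len b x (k + 1) ≤ s + Len b x k ∧
      ∀ r ∈ Set.Icc 0 (Len b x (k + 1)),
        Win b x k (θ * aa b x k) (X b x (i * del b x k + r) ω))) := by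
    intro θ hθ
    rw [Finset.mem_filter] at hθ ⊢
    obtain ⟨hθM, i, hi, hib, hsi, hie, hθe⟩ := hθ
    refine ⟨hθM, i, hi, hsi, hie, fun r hr => ?_⟩
    obtain ⟨_, q, hq1, hq2⟩ := shiftIdx_spec h1 (M_pos hp k) (Y b x k (i * del b x k) ω)
    rw [hθe] at hq1 hq2
    have h3 := good_local hp.toPar hG hib hr.1 hr.2
    rw [abs_le] at h3
    obtain ⟨z, hz⟩ := X_sub_Y hp.toPar2 k (i * del b x k + r) ω
    have hmul := hp.mul k
    have hb := hp.bpos k
    refine ⟨q + z, ?_, ?_⟩
    · rw [hz, hmul]
      push_cast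
      have : 0 ≤ b k * r := mul_nonneg hb.le hr.1
      linarith [h3.1]
    · rw [hz, hmul]
      push_cast
      have h4 : b k * r ≤ (1 - 2 * eta (k + 1)) * ell b x k := by
        rw [← bLen' k]; exact mul_le_mul_of_nonneg_left hr.2 hb.le
      have h5 : 3 * aa b x k + (1 - 2 * eta (k + 1)) * ell b x k ≤ wid b x k := by
        unfold aa wid
        have := mul_pos (eta_pos (k + 1)) (ell_pos hp.toPar k)
        nlinarith
      linarith [h3.2]
  exact_mod_cast Finset.card_le_card this

end Pool.Agent.Lib.MP_ee1e43_pr
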