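import Pool.Agent.Lib.MP_ee1e43_pr.Cadlag

/-!
# The process is a Lévy process
-/

namespace Pool.Agent.Lib.MP_ee1e43_pr

open MeasureTheory ProbabilityTheory Filter Topology
open scoped NNReal ENNReal

variable (b x : ℕ → ℝ)

/-- partial sums of the process -/
noncomputable def XK (K : ℕ) (t : ℝ) (ω : Sp) : ℝ :=
  b K * t + ∑ j ∈ Finset.range K, x (j + 1) * S j t ω

/-- the jump of the clock `c` -/
noncomputable def pos (c : ℕ × Bool) : ℝ := if c.2 then x (c.1 + 1) else - x (c.1 + 1)

/-- exponent of the partial sums -/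
noncomputable def PsiK (K : ℕ) (u : ℝ) : ℂ :=
  Complex.I * b K * u + ∑ c ∈ Finset.range K ×ˢ (Finset.univ : Finset Bool),
    (rate b x c : ℝ) * (Complex.exp (Complex.I * (u * pos x c : ℝ)) - 1)

/-- the Lévy measure -/
noncomputable def levy : Measure ℝ :=
  Measure.sum (fun c : ℕ × Bool => (rate b x c : ℝ≥0∞) • Measure.dirac (pos x c))

/-- the characteristic exponent -/
noncomputable def Psi (u : ℝ) : ℂ :=
  Complex.I * b 0 * u - ((0 : ℝ≥0) : ℝ) * u ^ 2 / 2 +
    ∫ z, (Complex.exp (Complex.I * u * z) - 1 - if |z| ≤ 1 then Complex.I * u * z else 0)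
      ∂(levy b x)

variable {b x}

lemma XK_eq (K : ℕ) (t : ℝ) (ω : Sp) :
    XK b x K t ω = b 0 * t + ∑ j ∈ Finset.range K, F b x j t ω := by
  unfold XK F
  rw [Finset.sum_sub_distrib, ← Finset.sum_mul, sum_d]
  ring

lemma XK_tendsto {ω : Sp} (hω : ω ∈ G0 b x) {t : ℝ} (ht : 0 ≤ t) :
    Tendsto (fun K => XK b x K t ω) atTop (𝓝 (X b x t ω)) := by
  simp_rw [XK_eq]
  unfold X
  rw [if_pos hω]
  exact (summable_F hω ht).hasSum.tendsto_sum_nat.const_add _

lemma measurable_XK (K : ℕ) (t : ℝ) : Measurable (XK b x K t) := by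
  unfold XK
  exact measurable_const.add (Finset.measurable_sum _ fun j _ => (measurable_S j t).const_mul _)

lemma sum_bool_fin {n : ℕ} (K : ℕ) (u : Fin n → ℝ) (t : Fin (n + 1) → ℝ) (ω : Sp) :
    ∑ l : Fin n, u l * (XK b x K (t l.succ) ω - XK b x K (t l.castSucc) ω) =
      ∑ l : Fin n, u l * (b K * (t l.succ - t l.castSucc)) +
      ∑ c ∈ Finset.range K ×ˢ (Finset.univ : Finset Bool), ∑ l : Fin n,
        (u l * pos x c) * ((cnt (ω c) (t l.succ) : ℝ) - cnt (ω c) (t l.castSucc)) := by
  rw [Finset.sum_product]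
  simp only [Fintype.sum_bool]
  unfold XK pos S
  simp only [if_true, Bool.false_eq_true, if_false]
  rw [Finset.sum_congr rfl (fun j _ => (Finset.sum_add_distrib).symm), Finset.sum_comm,
    ← Finset.sum_add_distrib]
  apply Finset.sum_congr rfl
  intro l _
  have : ∀ j, u l * x (j + 1) * ((cnt (ω (j, true)) (t l.succ) : ℝ) -
      cnt (ω (j, true)) (t l.castSucc)) + u l * -x (j + 1) *
        ((cnt (ω (j, false)) (t l.succ) : ℝ) - cnt (ω (j, false)) (t l.castSucc)) =
      u l * (x (j + 1) * ((cnt (ω (j, true)) (t l.succ) : ℝ) - cnt (ω (j, false)) (t l.succ)) -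
        x (j + 1) * ((cnt (ω (j, true)) (t l.castSucc) : ℝ) -
          cnt (ω (j, false)) (t l.castSucc))) := by
    intro j; ring
  simp_rw [this]
  rw [← Finset.mul_sum, Finset.sum_sub_distrib]
  ring

lemma joint_K (K : ℕ) {n : ℕ} {t : Fin (n + 1) → ℝ} (ht : Monotone t) (h0 : 0 ≤ t 0)
    (u : Fin n → ℝ) :
    ∫ ω, Complex.exp (Complex.I * ((∑ l : Fin n, u l * (XK b x K (t l.succ) ω -
        XK b x K (t l.castSucc) ω) : ℝ) : ℂ)) ∂(Pr b x) =
      Complex.exp (∑ l : Fin n, ((t l.succ - t l.castSucc : ℝ) : ℂ) * PsiK b x K (u l)) := by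
  set A : ℝ := ∑ l : Fin n, u l * (b K * (t l.succ - t l.castSucc)) with hA
  set s := Finset.range K ×ˢ (Finset.univ : Finset Bool) with hs
  let f : ∀ _ : ℕ × Bool, (ℕ → Blk) → ℂ := fun c w =>
    Complex.exp (Complex.I * ∑ l : Fin n, (u l * pos x c : ℝ) * ((cnt w (t l.succ) : ℝ) -
        (cnt w (t l.castSucc) : ℝ)))
  have h1 : ∀ ω : Sp, Complex.exp (Complex.I * ((∑ l : Fin n, u l * (XK b x K (t l.succ) ω -
        XK b x K (t l.castSucc) ω) : ℝ) : ℂ)) =
      Complex.exp (Complex.I * A) * ∏ c ∈ s, f c (ω c) := by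
    intro ω
    rw [sum_bool_fin, ← Complex.exp_sum, ← Complex.exp_add]
    congr 1
    rw [← Finset.mul_sum, ← mul_add, hA]
    push_cast
    rfl
  have hf : ∀ c, Measurable (f c) := by
    intro c
    apply Complex.measurable_exp.comp
    apply Measurable.const_mul
    apply Complex.measurable_ofReal.comp
    apply Finset.measurable_sum
    intro l _
    apply Measurable.const_mul
    have h2 : ∀ t : ℝ, Measurable (fun w : ℕ → Blk => ((cnt w t : ℕ) : ℝ)) := fun t =>
      measurable_from_nat.comp (measurable_cnt t)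
    exact (h2 _).sub (h2 _)
  simp_rw [h1]
  rw [integral_const_mul]
  unfold Pr
  rw [integral_prod_infinitePi (fun c => clk (rate b x c)) s f hf]
  have h3 : ∀ c, ∫ w, f c w ∂(clk (rate b x c)) = Complex.exp ((rate b x c : ℝ) *
      ∑ l : Fin n, ((t l.succ - t l.castSucc : ℝ) : ℂ) *
        (Complex.exp (Complex.I * (u l * pos x c : ℝ)) - 1)) := by
    intro c
    exact integral_exp_cnt (rate b x c) ht h0 (fun l => u l * pos x c)
  simp_rw [h3]
  rw [← Complex.exp_sum, ← Complex.exp_add]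
  congr 1
  unfold PsiK
  simp_rw [mul_add, Finset.mul_sum]
  rw [Finset.sum_add_distrib, Finset.sum_comm]
  congr 1
  · rw [hA]
    push_cast
    rw [Finset.mul_sum]
    apply Finset.sum_congr rfl
    intro l _
    ring
  · apply Finset.sum_congr rfl
    intro l _
    apply Finset.sum_congr rfl
    intro c _
    ring

lemma abs_pos (hp : Par b x) (c : ℕ × Bool) : |pos x c| = x (c.1 + 1) := by
  unfold pos
  have := hp.xpos (c.1 + 1)
  split_ifs
  · exact abs_of_pos this
  · rw [abs_neg, abs_of_pos this]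

lemma norm_exp_sub (θ : ℝ) :
    ‖Complex.exp (Complex.I * θ) - 1 - Complex.I * θ‖ ≤ 3 * θ ^ 2 := by
  rcases le_or_gt |θ| 1 with h | h
  · have h1 : ‖Complex.I * (θ : ℂ)‖ ≤ 1 := by simpa using h
    have h2 := Complex.norm_exp_sub_one_sub_id_le h1
    have h3 : ‖Complex.I * (θ : ℂ)‖ ^ 2 = θ ^ 2 := by simp
    rw [h3] at h2
    nlinarith [sq_nonneg θ]
  · have h1 : ‖Complex.exp (Complex.I * θ)‖ = 1 := by
      rw [mul_comm, Complex.norm_exp_ofReal_mul_I]
    have h2 : ‖Complex.I * (θ : ℂ)‖ = |θ| := by simp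
    calc ‖Complex.exp (Complex.I * θ) - 1 - Complex.I * θ‖
        ≤ ‖Complex.exp (Complex.I * θ) - 1‖ + ‖Complex.I * (θ : ℂ)‖ := norm_sub_le _ _
      _ ≤ (‖Complex.exp (Complex.I * θ)‖ + ‖(1:ℂ)‖) + ‖Complex.I * (θ : ℂ)‖ := by
          gcongr
          exact norm_sub_le _ _
      _ = 2 + |θ| := by rw [h1, h2]; simp; norm_num
      _ ≤ 3 * θ ^ 2 := by rw [← sq_abs]; nlinarith

/-- the integrand of the Lévy-Khintchine formula at the atoms -/
lemma integrand_pos (hp : Par b x) (u : ℝ) (c : ℕ × Bool) :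
    (Complex.exp (Complex.I * u * (pos x c : ℝ)) - 1 -
      if |pos x c| ≤ 1 then Complex.I * u * (pos x c : ℝ) else 0) =
    Complex.exp (Complex.I * (u * pos x c : ℝ)) - 1 - Complex.I * (u * pos x c : ℝ) := by
  rw [if_pos (by rw [abs_pos hp]; exact hp.xone _)]
  push_cast
  ring_nf

lemma x_le (hp : Par b x) (j : ℕ) : x (j + 1) ≤ (1 / 16) ^ j := by
  induction j with
  | zero => simpa using hp.xone 1
  | succ j ih =>
    have := hp.xdec (j + 1)
    rw [pow_succ]
    linarith

lemma summable_x (hp : Par b x) : Summable (fun c : ℕ × Bool => x (c.1 + 1)) := by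
  have h0 : Summable (fun j => x (j + 1)) :=
    Summable.of_nonneg_of_le (fun j => (hp.xpos _).le) (x_le hp)
      (summable_geometric_of_lt_one (by norm_num) (by norm_num))
  rw [summable_prod_of_nonneg (fun c => (hp.xpos _).le)]
  constructor
  · intro j
    exact (hasSum_fintype _).summable
  · simp only [tsum_fintype, Finset.sum_const, Finset.card_univ, Fintype.card_bool, nsmul_eq_mul]
    exact h0.mul_left _

lemma summable_rate_sq (hp : Par b x) :
    Summable (fun c : ℕ × Bool => (rate b x c : ℝ) * pos x c ^ 2) := by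
  refine Summable.of_nonneg_of_le (fun c => by positivity) (fun c => ?_) (summable_x hp)
  have h1 := rate_le hp c.1 c.2
  have h2 := hp.xpos (c.1 + 1)
  rw [← sq_abs, abs_pos hp]
  calc ((rate b x c : ℝ≥0) : ℝ) * x (c.1 + 1) ^ 2 ≤ 1 / x (c.1 + 1) * x (c.1 + 1) ^ 2 :=
        mul_le_mul_of_nonneg_right h1 (by positivity)
    _ = x (c.1 + 1) := by field_simp

lemma hasSum_levy (hp : Par b x) (u : ℝ) :
    HasSum (fun j : ℕ => ∑ e : Bool, (rate b x (j, e) : ℝ) *
        (Complex.exp (Complex.I * (u * pos x (j, e) : ℝ)) - 1 -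
          Complex.I * (u * pos x (j, e) : ℝ)))
      (∫ z, (Complex.exp (Complex.I * u * z) - 1 - if |z| ≤ 1 then Complex.I * u * z else 0)
        ∂(levy b x)) := by
  have h1 : HasSum (fun c : ℕ × Bool => (rate b x c : ℝ) *
        (Complex.exp (Complex.I * (u * pos x c : ℝ)) - 1 - Complex.I * (u * pos x c : ℝ)))
      (∫ z, (Complex.exp (Complex.I * u * z) - 1 - if |z| ≤ 1 then Complex.I * u * z else 0)
        ∂(levy b x)) := by
    unfold levy
    have h2 := hasSum_integral_sum_dirac (x := pos x) (c := fun c => (rate b x c : ℝ≥0∞))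
      (f := fun z : ℝ => (Complex.exp (Complex.I * u * z) - 1 -
        if |z| ≤ 1 then Complex.I * u * z else 0)) (fun c => ENNReal.coe_ne_top) ?_
    · convert! h2 using 1
      ext c
      rw [integrand_pos hp, Complex.real_smul]
      simp
    · simp_rw [integrand_pos hp]
      refine Summable.of_nonneg_of_le (fun c => by positivity) (fun c => ?_)
        ((summable_rate_sq hp).mul_left (3 * u ^ 2))
      rw [ENNReal.coe_toReal]
      calc ((rate b x c : ℝ≥0) : ℝ) * ‖Complex.exp (Complex.I * (u * pos x c : ℝ)) - 1 -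
            Complex.I * (u * pos x c : ℝ)‖ ≤ (rate b x c : ℝ) * (3 * (u * pos x c) ^ 2) :=
            mul_le_mul_of_nonneg_left (norm_exp_sub _) (NNReal.coe_nonneg _)
        _ = 3 * u ^ 2 * ((rate b x c : ℝ) * pos x c ^ 2) := by ring
  exact h1.prod_fiberwise (fun j => hasSum_fintype _)

lemma rate_sub (hp : Par b x) (j : ℕ) :
    (rate b x (j, true) : ℝ) * x (j + 1) - (rate b x (j, false) : ℝ) * x (j + 1) =
      b j - b (j + 1) := by
  rw [rate_true hp, rate_false hp]
  have := (hp.xpos (j + 1)).ne'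
  field_simp
  ring

lemma PsiK_eq (hp : Par b x) (K : ℕ) (u : ℝ) :
    PsiK b x K u = Complex.I * b 0 * u + ∑ j ∈ Finset.range K, ∑ e : Bool,
      (rate b x (j, e) : ℝ) * (Complex.exp (Complex.I * (u * pos x (j, e) : ℝ)) - 1 -
          Complex.I * (u * pos x (j, e) : ℝ)) := by
  have h1 : ∀ j, ∑ e : Bool, ((rate b x (j, e) : ℝ) : ℂ) * (Complex.exp (Complex.I *
      (u * pos x (j, e) : ℝ)) - 1 - Complex.I * (u * pos x (j, e) : ℝ)) =
      ∑ e : Bool, ((rate b x (j, e) : ℝ) : ℂ) * (Complex.exp (Complex.I *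
      (u * pos x (j, e) : ℝ)) - 1) - Complex.I * u * ((b j - b (j + 1) : ℝ) : ℂ) := by
    intro j
    rw [← rate_sub hp j]
    simp only [Fintype.sum_bool]
    unfold pos
    simp only [if_true, Bool.false_eq_true, if_false]
    push_cast
    ring
  simp_rw [h1]
  rw [Finset.sum_sub_distrib, ← Finset.mul_sum]
  unfold PsiK
  rw [Finset.sum_product]
  have h2 : ∑ j ∈ Finset.range K, ((b j - b (j + 1) : ℝ) : ℂ) = ((b 0 - b K : ℝ) : ℂ) := by
    rw [← sum_d]; push_cast; rfl
  rw [h2]
  push_cast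
  ring

lemma PsiK_tendsto (hp : Par b x) (u : ℝ) :
    Tendsto (fun K => PsiK b x K u) atTop (𝓝 (Psi b x u)) := by
  simp_rw [PsiK_eq hp]
  unfold Psi
  have h := (hasSum_levy hp u).tendsto_sum_nat.const_add (Complex.I * b 0 * u)
  convert! h using 2
  simp

/-- joint characteristic function of the increments of the process -/
lemma joint_X (hp : Par b x) {n : ℕ} {t : Fin (n + 1) → ℝ} (ht : Monotone t) (h0 : 0 ≤ t 0)
    (u : Fin n → ℝ) :
    ∫ ω, Complex.exp (Complex.I * ((∑ l : Fin n, u l * (X b x (t l.succ) ω -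
        X b x (t l.castSucc) ω) : ℝ) : ℂ)) ∂(Pr b x) =
      Complex.exp (∑ l : Fin n, ((t l.succ - t l.castSucc : ℝ) : ℂ) * Psi b x (u l)) := by
  have htp : ∀ l, 0 ≤ t l := fun l => h0.trans (ht (Fin.zero_le l))
  have h1 : Tendsto (fun K => ∫ ω, Complex.exp (Complex.I * ((∑ l : Fin n, u l *
      (XK b x K (t l.succ) ω - XK b x K (t l.castSucc) ω) : ℝ) : ℂ)) ∂(Pr b x)) atTop
      (𝓝 (∫ ω, Complex.exp (Complex.I * ((∑ l : Fin n, u l * (X b x (t l.succ) ω -
        X b x (t l.castSucc) ω) : ℝ) : ℂ)) ∂(Pr b x))) := by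
    apply tendsto_integral_of_dominated_convergence (fun _ => (1:ℝ))
    · intro K
      apply Measurable.aestronglyMeasurable
      apply Complex.measurable_exp.comp
      apply Measurable.const_mul
      apply Complex.measurable_ofReal.comp
      exact Finset.measurable_sum _ fun l _ =>
        ((measurable_XK K _).sub (measurable_XK K _)).const_mul _
    · exact integrable_const _
    · intro K
      apply ae_of_all
      intro ω
      rw [mul_comm, Complex.norm_exp_ofReal_mul_I]
    · filter_upwards [ae_G0 hp] with ω hω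
      apply (Complex.continuous_exp.tendsto _).comp
      apply Tendsto.const_mul
      apply (Complex.continuous_ofReal.tendsto _).comp
      exact tendsto_finsetSum _ fun l _ =>
        ((XK_tendsto hω (htp _)).sub (XK_tendsto hω (htp _))).const_mul _
  have h2 : Tendsto (fun K => Complex.exp (∑ l : Fin n, ((t l.succ - t l.castSucc : ℝ) : ℂ) *
      PsiK b x K (u l))) atTop (𝓝 (Complex.exp (∑ l : Fin n,
        ((t l.succ - t l.castSucc : ℝ) : ℂ) * Psi b x (u l)))) := by
    apply (Complex.continuous_exp.tendsto _).comp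
    exact tendsto_finsetSum _ fun l _ => (PsiK_tendsto hp (u l)).const_mul _
  simp_rw [joint_K _ ht h0 u] at h1
  exact tendsto_nhds_unique h1 h2

/-- characteristic function of an increment -/
lemma charFun_incr (hp : Par b x) {s t : ℝ} (hs : 0 ≤ s) (hst : s ≤ t) (u : ℝ) :
    charFun ((Pr b x).map (fun ω => X b x t ω - X b x s ω)) u =
      Complex.exp (((t - s : ℝ) : ℂ) * Psi b x u) := by
  have hm : Measurable (fun ω => X b x t ω - X b x s ω) := (measurable_X t).sub (measurable_X s)
  rw [charFun_apply_real, integral_map hm.aemeasurable (by fun_prop)]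
  have ht : Monotone (![s, t] : Fin 2 → ℝ) := by
    intro a b hab
    fin_cases a <;> fin_cases b <;> simp_all
  have h1 := joint_X hp ht (by simpa using hs) (fun _ : Fin 1 => u)
  simp only [Fin.sum_univ_one, Fin.isValue, Fin.succ_zero_eq_one, Matrix.cons_val_one,
    Matrix.cons_val_fin_one, Fin.castSucc_zero, Matrix.cons_val_zero] at h1
  rw [← h1]
  apply integral_congr_ae
  apply ae_of_all
  intro ω
  simp only
  congr 1
  push_cast
  ring

lemma hasIndepIncrements (hp : Par b x) :
    HasIndepIncrements (fun (t : ℝ≥0) ω => X b x t ω) (Pr b x) := by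
  intro n t ht
  have hm : ∀ i : Fin n, Measurable (fun ω => X b x (t i.succ) ω - X b x (t i.castSucc) ω) :=
    fun i => (measurable_X _).sub (measurable_X _)
  rw [iIndepFun_iff_charFun_pi (fun i => (hm i).aemeasurable)]
  intro u
  have ht' : Monotone (fun l : Fin (n + 1) => ((t l : ℝ≥0) : ℝ)) := by
    intro l l' h
    exact_mod_cast ht h
  have hle : ∀ l : Fin n, ((t l.castSucc : ℝ≥0) : ℝ) ≤ t l.succ := fun l =>
    ht' (Fin.castSucc_le_succ l)
  simp_rw [fun i : Fin n => charFun_incr hp (NNReal.coe_nonneg (t i.castSucc)) (hle i)]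
  rw [← Complex.exp_sum, ← joint_X hp ht' (NNReal.coe_nonneg _) (fun l => u l), charFun_apply,
    integral_map]
  · apply integral_congr_ae
    apply ae_of_all
    intro ω
    simp only [PiLp.inner_apply, Real.inner_apply]
    congr 1
    push_cast
    rw [mul_comm]
    congr 1
    apply Finset.sum_congr rfl
    intro i _
    ring
  · exact ((WithLp.measurable_toLp 2 (Fin n → ℝ)).comp (measurable_pi_lambda _ hm)).aemeasurable
  · fun_prop

lemma isLevy (hp : Par b x) : IsLevyProcess (Pr b x) (fun (t : ℝ≥0) ω => X b x t ω) where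
  measurable := fun t => measurable_X t
  zero := fun ω => X_zero ω
  indep := hasIndepIncrements hp
  stationary := by
    intro s t
    have hm1 : Measurable (fun ω => X b x ((s + t : ℝ≥0) : ℝ) ω - X b x s ω) :=
      (measurable_X _).sub (measurable_X _)
    refine ⟨hm1.aemeasurable, (measurable_X _).aemeasurable, ?_⟩
    have : IsProbabilityMeasure ((Pr b x).map
      (fun ω => X b x ((s + t : ℝ≥0) : ℝ) ω - X b x s ω)) :=
      Measure.isProbabilityMeasure_map hm1.aemeasurable
    have : IsProbabilityMeasure ((Pr b x).map (fun ω => X b x (t : ℝ) ω)) :=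
      Measure.isProbabilityMeasure_map (measurable_X _).aemeasurable
    apply Measure.ext_of_charFun
    ext u
    rw [charFun_incr hp (NNReal.coe_nonneg s) (by push_cast; linarith [NNReal.coe_nonneg t])]
    have h2 := charFun_incr hp (le_refl (0:ℝ)) (NNReal.coe_nonneg t) u
    simp only [X_zero, sub_zero] at h2
    rw [h2]
    congr 2
    push_cast
    ring
  cadlag := fun ω => X_cadlag hp ω

lemma levy_zero (hp : Par b x) : levy b x {0} = 0 := by
  unfold levy
  rw [Measure.sum_apply _ (measurableSet_singleton 0)]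
  rw [ENNReal.tsum_eq_zero]
  intro c
  rw [Measure.smul_apply, Measure.dirac_apply' _ (measurableSet_singleton 0), smul_eq_mul]
  have : pos x c ∉ ({0} : Set ℝ) := by
    intro h
    rw [Set.mem_singleton_iff] at h
    have h1 := abs_pos hp c
    rw [h, abs_zero] at h1
    exact absurd h1 (hp.xpos _).ne
  simp [this]

lemma lintegral_levy (f : ℝ → ℝ≥0∞) (hf : Measurable f) :
    ∫⁻ z, f z ∂(levy b x) = ∑' c : ℕ × Bool, (rate b x c : ℝ≥0∞) * f (pos x c) := by
  unfold levy
  rw [lintegral_sum_measure]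
  congr 1
  ext c
  rw [lintegral_smul_measure, lintegral_dirac' _ hf, smul_eq_mul]

lemma levy_sq (hp : Par b x) : ∫⁻ z, ENNReal.ofReal (min 1 (z ^ 2)) ∂(levy b x) < ∞ := by
  rw [lintegral_levy _ (by fun_prop)]
  have h1 : ∀ c : ℕ × Bool, (rate b x c : ℝ≥0∞) * ENNReal.ofReal (min 1 (pos x c ^ 2)) ≤
      ENNReal.ofReal ((rate b x c : ℝ) * pos x c ^ 2) := by
    intro c
    rw [ENNReal.ofReal_mul (NNReal.coe_nonneg _), ENNReal.ofReal_coe_nnreal]
    gcongr
    exact min_le_right _ _
  refine lt_of_le_of_lt (ENNReal.tsum_le_tsum h1) ?_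
  rw [← ENNReal.ofReal_tsum_of_nonneg (fun c => by positivity) (summable_rate_sq hp)]
  exact ENNReal.ofReal_lt_top

lemma levy_abs (hp : Par b x) : ∫⁻ z, ENNReal.ofReal (min 1 |z|) ∂(levy b x) = ∞ := by
  rw [lintegral_levy _ (by fun_prop)]
  rw [ENNReal.tsum_prod']
  have h1 : ∀ j : ℕ, ∑' e : Bool, (rate b x (j, e) : ℝ≥0∞) *
      ENNReal.ofReal (min 1 |pos x (j, e)|) = 1 := by
    intro j
    have h2 : ∀ e, (rate b x (j, e) : ℝ≥0∞) * ENNReal.ofReal (min 1 |pos x (j, e)|) =
        ENNReal.ofReal ((rate b x (j, e) : ℝ) * x (j + 1)) := by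
      intro e
      rw [abs_pos hp, min_eq_right (hp.xone _), ENNReal.ofReal_mul (NNReal.coe_nonneg _),
        ENNReal.ofReal_coe_nnreal]
    simp_rw [h2]
    rw [tsum_bool, ← ENNReal.ofReal_add (mul_nonneg (NNReal.coe_nonneg _) (hp.xpos _).le)
      (mul_nonneg (NNReal.coe_nonneg _) (hp.xpos _).le), rate_true hp, rate_false hp]
    have := (hp.xpos (j + 1)).ne'
    rw [← ENNReal.ofReal_one]
    congr 1
    field_simp
    ring
  simp_rw [h1]
  simp

lemma hasTriplet (hp : Par b x) :
    HasLevyTriplet (Pr b x) (fun (t : ℝ≥0) ω => X b x t ω) (b 0) 0 (levy b x) where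
  zero := levy_zero hp
  lintegral := levy_sq hp
  charFun := by
    intro t u
    have h2 := charFun_incr hp (le_refl (0:ℝ)) (NNReal.coe_nonneg t) u
    simp only [X_zero, sub_zero] at h2
    rw [h2]
    rfl

end Pool.Agent.Lib.MP_ee1e43_pr
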