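import Pool.Agent.Lib.MP_ee1e43_pr.Hit

/-!
# Existence of the parameters
-/

namespace Pool.Agent.Lib.MP_ee1e43_pr

open MeasureTheory ProbabilityTheory Filter Topology
open scoped NNReal ENNReal

/-- effective drifts -/
noncomputable def b0 (k : ℕ) : ℝ := (1 / 2) ^ (10 * 100 ^ k)

/-- periods -/
noncomputable def x0 (k : ℕ) : ℝ := (1 / 2) ^ (100 * 100 ^ k)

/-- number of shifts -/
def M0 (k : ℕ) : ℕ := 2 ^ (k + 9 + 8910 * 100 ^ k)

lemma half_le {m n : ℕ} (h : n ≤ m) : (1 / 2 : ℝ) ^ m ≤ (1 / 2) ^ n :=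
  pow_le_pow_of_le_one (by norm_num) (by norm_num) h

lemma half_key (j : ℕ) {m n : ℕ} (h : n + j ≤ m) : (2:ℝ) ^ j * (1 / 2) ^ m ≤ (1 / 2) ^ n := by
  calc (2:ℝ) ^ j * (1 / 2) ^ m ≤ 2 ^ j * (1 / 2) ^ (n + j) :=
        mul_le_mul_of_nonneg_left (half_le h) (by positivity)
    _ = (1 / 2) ^ n * (2 * (1 / 2)) ^ j := by rw [pow_add, mul_pow]; ring
    _ = (1 / 2) ^ n := by norm_num

lemma le_pow (k : ℕ) : k + 1 ≤ 100 ^ k := Nat.lt_pow_self (by norm_num)

lemma x0_succ (k : ℕ) : x0 (k + 1) = (1 / 2) ^ (10000 * 100 ^ k) := by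
  unfold x0; rw [pow_succ 100 k]; congr 1; ring

lemma b0_succ (k : ℕ) : b0 (k + 1) = (1 / 2) ^ (1000 * 100 ^ k) := by
  unfold b0; rw [pow_succ 100 k]; congr 1; ring

lemma kap_eq (k : ℕ) : kap k = (1 / 2) ^ (k + 9) := by
  unfold kap eta
  rw [show k + 9 = (k + 1 + 6) + 2 by ring, pow_add _ (k + 1 + 6) 2]
  norm_num
  ring

lemma T0_eq (k : ℕ) : T b0 x0 k = (1 / 2) ^ (90 * 100 ^ k) := by
  unfold T x0 b0
  rw [div_eq_iff (by positivity), ← pow_add]
  congr 1
  ring

lemma ell0_eq (k : ℕ) : ell b0 x0 k = (1 / 2) ^ (9010 * 100 ^ k) := by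
  unfold ell
  rw [T0_eq, b0, ← pow_add, pow_succ 100 k]
  congr 1
  ring

lemma aa0_eq (k : ℕ) : aa b0 x0 k = (1 / 2) ^ (k + 9 + 9010 * 100 ^ k) := by
  unfold aa
  rw [ell0_eq, pow_add _ (k + 9), ← kap_eq]
  unfold kap
  ring

lemma par0 : Par b0 x0 where
  bpos := fun k => by unfold b0; positivity
  bone := fun k => pow_le_one₀ (by norm_num) (by norm_num)
  bmono := fun k => by
    rw [b0_succ, b0]
    exact half_le (by omega)
  xpos := fun k => by unfold x0; positivity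
  xone := fun k => pow_le_one₀ (by norm_num) (by norm_num)
  xdec := fun k => by
    rw [x0_succ, x0]
    have h1 := le_pow k
    have h2 := half_key 4 (m := 10000 * 100 ^ k) (n := 100 * 100 ^ k) (by omega)
    have : (2:ℝ) ^ 4 = 16 := by norm_num
    rw [this] at h2
    linarith

lemma par2 : Par2 b0 x0 where
  toPar := par0
  dvd := fun k => by
    refine ⟨2 ^ (9900 * 100 ^ k), ?_⟩
    rw [x0_succ, x0, show 10000 * 100 ^ k = 100 * 100 ^ k + 9900 * 100 ^ k by ring,
      pow_add _ (100 * 100 ^ k)]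
    push_cast
    have : (2:ℝ) ^ (9900 * 100 ^ k) * (1 / 2) ^ (9900 * 100 ^ k) = 1 := by
      rw [← mul_pow]; norm_num
    calc (1 / 2 : ℝ) ^ (100 * 100 ^ k) = (1 / 2 : ℝ) ^ (100 * 100 ^ k) *
          ((2:ℝ) ^ (9900 * 100 ^ k) * (1 / 2) ^ (9900 * 100 ^ k)) := by rw [this, mul_one]
      _ = _ := by ring
  thin := fun k => by
    have h1 := le_pow k
    rw [b0_succ, kap_eq, b0, div_le_iff₀ (by positivity), ← pow_mul, ← pow_mul, ← pow_add,
      ← pow_add]
    have h2 := half_key 16 (m := 1000 * 100 ^ k)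
      (n := k + ((k + 9) * 3 + 10 * 100 ^ k * 3)) (by omega)
    have : (2:ℝ) ^ 16 = 65536 := by norm_num
    rwa [this] at h2
  ell_le := fun k => by
    have h1 := le_pow k
    rw [ell0_eq, x0, eta, ← pow_add]
    have h2 := half_key 3 (m := 9010 * 100 ^ k) (n := k + 6 + 100 * 100 ^ k) (by omega)
    have : (2:ℝ) ^ 3 = 8 := by norm_num
    rw [this] at h2
    linarith
  T_le := fun k => by
    have h1 := le_pow k
    rw [T0_eq]
    exact half_le (by omega)

lemma hor0_le : Hor b0 x0 ≤ 1 := by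
  unfold Hor
  rw [T0_eq]
  have : (1 / 2 : ℝ) ^ (90 * 100 ^ 0) ≤ (1 / 2) ^ 1 := half_le (by norm_num)
  linarith

lemma par3 : Par3 b0 x0 M0 where
  toPar2 := par2
  mul := fun k => by
    rw [aa0_eq, x0, M0, show k + 9 + 9010 * 100 ^ k = (k + 9 + 8910 * 100 ^ k) + 100 * 100 ^ k by
      ring, pow_add _ (k + 9 + 8910 * 100 ^ k) (100 * 100 ^ k)]
    push_cast
    have : (2:ℝ) ^ (k + 9 + 8910 * 100 ^ k) * (1 / 2) ^ (k + 9 + 8910 * 100 ^ k) = 1 := by
      rw [← mul_pow]; norm_num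
    rw [← mul_assoc, this, one_mul]
  glob := fun k => by
    have h1 := le_pow k
    have hH := hor0_le
    have hH0 := (Hor_pos par0).le
    have he : eta k / 4 = (1 / 2) ^ (k + 8) := by
      unfold eta
      rw [show k + 8 = k + 6 + 2 by ring, pow_add _ (k + 6) 2]; norm_num; ring
    rw [he, x0_succ, x0, ← pow_add, ← pow_mul, div_le_iff₀ (by positivity), ← pow_add]
    have h2 := half_key 12 (m := 10000 * 100 ^ k)
      (n := k + 4 + (k + 8 + 100 * 100 ^ k) * 3) (by omega)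
    have : (2:ℝ) ^ 12 = 4096 := by norm_num
    rw [this] at h2
    refine le_trans ?_ h2
    have h3 : Hor b0 x0 ^ 2 ≤ 1 := pow_le_one₀ hH0 hH
    have h4 : (0:ℝ) ≤ (1 / 2) ^ (10000 * 100 ^ k) := by positivity
    nlinarith
  loc := fun k => by
    have h1 := le_pow k
    have hH := hor0_le
    have hH0 := Hor_pos par0
    have ha := aa_pos par0 k
    have hd := del_pos par0 k
    have hk := kap_pos k
    have hk' := kap_le k
    have hb := par0.bpos k
    have hb1 := par0.bone k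
    have hx := par0.xpos k
    have hx' := par0.xpos (k + 1)
    have hbd := bdel par0 k
    -- bounds for the mesh
    have hd1 : aa b0 x0 k ≤ b0 k * del b0 x0 k := by rw [hbd]; nlinarith
    have hd2 : b0 k * del b0 x0 k ≤ 2 * aa b0 x0 k := by rw [hbd]; nlinarith
    have hdone : del b0 x0 k ≤ 1 := by
      have e1 : 2 * aa b0 x0 k ≤ b0 k := by
        rw [aa0_eq, b0]
        have := half_key 1 (m := k + 9 + 9010 * 100 ^ k) (n := 10 * 100 ^ k) (by omega)
        simpa using this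
      have e2 : b0 k * del b0 x0 k ≤ b0 k * 1 := by linarith
      exact le_of_mul_le_mul_left e2 hb
    have hng : (ng b0 x0 k : ℝ) ≤ 2 / del b0 x0 k := by
      unfold ng
      push_cast
      have e1 : (⌊Hor b0 x0 / del b0 x0 k⌋₊ : ℝ) ≤ Hor b0 x0 / del b0 x0 k :=
        Nat.floor_le (by positivity)
      have e2 : Hor b0 x0 / del b0 x0 k ≤ 1 / del b0 x0 k :=
        div_le_div_of_nonneg_right hH hd.le
      have e3 : 1 ≤ 1 / del b0 x0 k := by rw [le_div_iff₀ hd]; linarith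
      have e4 : 2 / del b0 x0 k = 1 / del b0 x0 k + 1 / del b0 x0 k := by ring
      linarith
    have hng2 : (ng b0 x0 k : ℝ) ≤ 2 * b0 k / aa b0 x0 k := by
      refine hng.trans ?_
      rw [div_le_div_iff₀ hd ha]
      nlinarith
    have hp1 : 4096 * del b0 x0 k ^ 2 * x0 (k + 1) / aa b0 x0 k ^ 3 ≤
        32768 * x0 (k + 1) / (kap k ^ 3 * b0 k ^ 2 * aa b0 x0 k) := by
      rw [div_le_div_iff₀ (by positivity) (by positivity)]
      have e1 : (b0 k * del b0 x0 k) ^ 2 ≤ (2 * aa b0 x0 k) ^ 2 :=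
        pow_le_pow_left₀ (by positivity) hd2 2
      have e2 : kap k ^ 3 ≤ 1 := pow_le_one₀ hk.le (by linarith)
      calc 4096 * del b0 x0 k ^ 2 * x0 (k + 1) * (kap k ^ 3 * b0 k ^ 2 * aa b0 x0 k)
          = 4096 * x0 (k + 1) * aa b0 x0 k * (kap k ^ 3 * (b0 k * del b0 x0 k) ^ 2) := by ring
        _ ≤ 4096 * x0 (k + 1) * aa b0 x0 k * (1 * (2 * aa b0 x0 k) ^ 2) := by
            apply mul_le_mul_of_nonneg_left _ (by positivity)
            exact mul_le_mul e2 e1 (by positivity) (by norm_num)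
        _ = 16384 * x0 (k + 1) * aa b0 x0 k ^ 3 := by ring
        _ ≤ 32768 * x0 (k + 1) * aa b0 x0 k ^ 3 := by
            have : 0 ≤ x0 (k + 1) * aa b0 x0 k ^ 3 := by positivity
            nlinarith
    have hp2 : 32768 * x0 (k + 1) / (kap k ^ 3 * b0 k ^ 3 * del b0 x0 k) ≤
        32768 * x0 (k + 1) / (kap k ^ 3 * b0 k ^ 2 * aa b0 x0 k) := by
      apply div_le_div_of_nonneg_left (by positivity) (by positivity)
      calc kap k ^ 3 * b0 k ^ 2 * aa b0 x0 k ≤ kap k ^ 3 * b0 k ^ 2 * (b0 k * del b0 x0 k) :=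
            mul_le_mul_of_nonneg_left hd1 (by positivity)
        _ = kap k ^ 3 * b0 k ^ 3 * del b0 x0 k := by ring
    have hpb : pbad b0 x0 k ≤ 65536 * x0 (k + 1) / (kap k ^ 3 * b0 k ^ 2 * aa b0 x0 k) := by
      unfold pbad
      refine (add_le_add hp1 hp2).trans (le_of_eq ?_)
      ring
    have hmul : x0 k = M0 k * aa b0 x0 k := by
      rw [aa0_eq, x0, M0, show k + 9 + 9010 * 100 ^ k = (k + 9 + 8910 * 100 ^ k) + 100 * 100 ^ k by
        ring, pow_add _ (k + 9 + 8910 * 100 ^ k) (100 * 100 ^ k)]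
      push_cast
      have : (2:ℝ) ^ (k + 9 + 8910 * 100 ^ k) * (1 / 2) ^ (k + 9 + 8910 * 100 ^ k) = 1 := by
        rw [← mul_pow]; norm_num
      rw [← mul_assoc, this, one_mul]
    have hM : (M0 k : ℝ) = x0 k / aa b0 x0 k := by
      rw [hmul]; field_simp
    calc (ng b0 x0 k : ℝ) * pbad b0 x0 k
        ≤ (2 * b0 k / aa b0 x0 k) *
          (65536 * x0 (k + 1) / (kap k ^ 3 * b0 k ^ 2 * aa b0 x0 k)) := by
          apply mul_le_mul hng2 hpb (pbad_nonneg par0 k) (by positivity)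
      _ = 131072 * x0 (k + 1) / (kap k ^ 3 * b0 k * aa b0 x0 k ^ 2) := by
          field_simp
          ring
      _ ≤ (1 / 2) ^ (k + 4) * (kap k * (x0 k / aa b0 x0 k)) := by
          have e0 : (1 / 2 : ℝ) ^ (k + 4) * (kap k * (x0 k / aa b0 x0 k)) =
              (1 / 2) ^ (k + 4) * kap k * x0 k / aa b0 x0 k := by ring
          rw [e0, div_le_div_iff₀ (by positivity) ha]
          have key : 131072 * x0 (k + 1) ≤
              (1 / 2) ^ (k + 4) * kap k * x0 k * (kap k ^ 3 * b0 k * aa b0 x0 k) := by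
            rw [x0_succ, kap_eq, aa0_eq, x0, b0, ← pow_mul, ← pow_add, ← pow_add, ← pow_add,
              ← pow_add, ← pow_add]
            have h2 := half_key 17 (m := 10000 * 100 ^ k)
              (n := k + 4 + (k + 9) + 100 * 100 ^ k + ((k + 9) * 3 + 10 * 100 ^ k +
                (k + 9 + 9010 * 100 ^ k))) (by omega)
            have : (2:ℝ) ^ 17 = 131072 := by norm_num
            rwa [this] at h2
          calc 131072 * x0 (k + 1) * aa b0 x0 k ≤
                (1 / 2) ^ (k + 4) * kap k * x0 k * (kap k ^ 3 * b0 k * aa b0 x0 k) *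
                  aa b0 x0 k := mul_le_mul_of_nonneg_right key ha.le
            _ = (1 / 2) ^ (k + 4) * kap k * x0 k * (kap k ^ 3 * b0 k * aa b0 x0 k ^ 2) := by ring
      _ = (1 / 2) ^ (k + 4) * (kap k * M0 k) := by rw [hM]

end Pool.Agent.Lib.MP_ee1e43_pr
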