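import Pool.Agent.Lib.MP_ee1e43_pr.Proc

/-!
# The process: paths and maximal inequalities
-/

namespace Pool.Agent.Lib.MP_ee1e43_pr

open MeasureTheory ProbabilityTheory Filter Topology
open scoped NNReal ENNReal

variable (b x : ℕ → ℝ)

/-- sample points for which the series that defines the process converges -/
def G0 : Set Sp :=
  {ω | ∀ n : ℕ, ∃ J : ℕ, ∀ j ≥ J, ∀ q : ℚ, 0 ≤ q → (q : ℝ) ≤ n → |F b x j q ω| ≤ (1 / 2) ^ j}

open Classical in
/-- the process -/
noncomputable def X (t : ℝ) (ω : Sp) : ℝ :=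
  if ω ∈ G0 b x then b 0 * t + ∑' j, F b x j t ω else 0

/-- the process without the jumps of the levels `j < k` -/
noncomputable def Y (k : ℕ) (t : ℝ) (ω : Sp) : ℝ :=
  X b x t ω - ∑ j ∈ Finset.range k, x (j + 1) * S j t ω

variable {b x}

lemma measurable_S (j : ℕ) (t : ℝ) : Measurable (S j t) := by
  unfold S
  have h1 : Measurable (fun w : ℕ → Blk => (cnt w t : ℝ)) :=
    measurable_from_nat.comp (measurable_cnt t)
  exact (h1.comp (measurable_pi_apply _)).sub (h1.comp (measurable_pi_apply _))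

lemma measurable_F (j : ℕ) (t : ℝ) : Measurable (F b x j t) := by
  unfold F
  exact ((measurable_S j t).const_mul _).sub measurable_const

lemma measurableSet_G0 : MeasurableSet (G0 b x) := by
  have : G0 b x = ⋂ n : ℕ, ⋃ J : ℕ, ⋂ j : ℕ, ⋂ (_ : j ≥ J), ⋂ q : ℚ, ⋂ (_ : 0 ≤ q),
      ⋂ (_ : (q:ℝ) ≤ n), {ω | |F b x j q ω| ≤ (1 / 2) ^ j} := by
    ext ω
    simp [G0]
  rw [this]
  refine MeasurableSet.iInter fun n => MeasurableSet.iUnion fun J => MeasurableSet.iInter fun j =>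
    MeasurableSet.iInter fun _ => MeasurableSet.iInter fun q => MeasurableSet.iInter fun _ =>
    MeasurableSet.iInter fun _ => ?_
  exact measurableSet_le (measurable_F j q).abs measurable_const

lemma measurable_X (t : ℝ) : Measurable (X b x t) := by
  unfold X
  classical
  refine Measurable.ite measurableSet_G0 ?_ measurable_const
  exact measurable_const.add (Measurable.tsum fun j => measurable_F j t)

lemma S_zero (j : ℕ) {t : ℝ} (ht : t ≤ 0) (ω : Sp) : S j t ω = 0 := by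
  unfold S
  rw [cnt_zero _ ht, cnt_zero _ ht]
  simp

lemma F_zero (j : ℕ) (ω : Sp) : F b x j 0 ω = 0 := by
  unfold F
  rw [S_zero j le_rfl]; simp

lemma X_zero (ω : Sp) : X b x 0 ω = 0 := by
  unfold X
  simp [F_zero]

lemma S_right (j : ℕ) (t : ℝ) (ω : Sp) : ∀ᶠ t' in 𝓝[≥] t, S j t' ω = S j t ω := by
  filter_upwards [cnt_right (ω (j, true)) t, cnt_right (ω (j, false)) t] with t' h1 h2
  unfold S
  rw [h1, h2]

lemma F_cont (j : ℕ) (t : ℝ) (ω : Sp) :
    ContinuousWithinAt (fun t' => F b x j t' ω) (Set.Ici t) t := by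
  have h1 : ContinuousWithinAt (fun t' => x (j + 1) * S j t ω - (b j - b (j + 1)) * t')
      (Set.Ici t) t := by fun_prop
  refine h1.congr_of_eventuallyEq ?_ rfl
  filter_upwards [S_right j t ω] with t' ht'
  unfold F
  rw [ht']

/-- on the good set the bound holds at all real times -/
lemma G0_bound {ω : Sp} (hω : ω ∈ G0 b x) (n : ℕ) :
    ∃ J : ℕ, ∀ j ≥ J, ∀ t : ℝ, 0 ≤ t → t < n → |F b x j t ω| ≤ (1 / 2) ^ j := by
  obtain ⟨J, hJ⟩ := hω n
  refine ⟨J, fun j hj t ht0 htn => ?_⟩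
  by_contra hcon
  rw [not_le] at hcon
  have h1 : ContinuousWithinAt (fun t' => |F b x j t' ω|) (Set.Ici t) t := (F_cont j t ω).abs
  have h2 : ∀ᶠ t' in 𝓝[≥] t, (1 / 2 : ℝ) ^ j < |F b x j t' ω| := h1.eventually (lt_mem_nhds hcon)
  rw [eventually_nhdsWithin_iff] at h2
  obtain ⟨ε, hε, h3⟩ := Metric.eventually_nhds_iff.mp h2
  obtain ⟨q, hq1, hq2⟩ := exists_rat_btwn (lt_min (lt_add_of_pos_right t hε) htn)
  rw [lt_min_iff] at hq2
  have h4 := h3 (y := q) (by rw [Real.dist_eq, abs_of_pos (by linarith)]; linarith [hq2.1]) hq1.le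
  have h5 := hJ j hj q (by exact_mod_cast (ht0.trans hq1.le)) hq2.2.le
  linarith

lemma summable_F {ω : Sp} (hω : ω ∈ G0 b x) {t : ℝ} (ht : 0 ≤ t) :
    Summable (fun j => F b x j t ω) := by
  obtain ⟨n, hn⟩ := exists_nat_gt t
  obtain ⟨J, hJ⟩ := G0_bound hω n
  refine Summable.of_norm_bounded_eventually_nat (g := fun j => (1 / 2 : ℝ) ^ j)
    (summable_geometric_of_lt_one (by norm_num) (by norm_num)) ?_
  filter_upwards [eventually_ge_atTop J] with j hj
  exact hJ j hj t ht hn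

lemma sum_d (k : ℕ) : ∑ j ∈ Finset.range k, (b j - b (j + 1)) = b 0 - b k :=
  Finset.sum_range_sub' b k

lemma Y_eq {ω : Sp} (hω : ω ∈ G0 b x) (k : ℕ) {t : ℝ} (ht : 0 ≤ t) :
    Y b x k t ω = b k * t + ∑' i, F b x (i + k) t ω := by
  unfold Y X
  rw [if_pos hω, ← (summable_F hω ht).sum_add_tsum_nat_add k]
  have h1 : ∑ j ∈ Finset.range k, F b x j t ω =
      ∑ j ∈ Finset.range k, x (j + 1) * S j t ω - (b 0 - b k) * t := by
    rw [← sum_d, Finset.sum_mul, ← Finset.sum_sub_distrib]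
    rfl
  rw [h1]
  ring

/-- the increments of `Y k` -/
lemma Y_sub {ω : Sp} (hω : ω ∈ G0 b x) (k : ℕ) {s r : ℝ} (hs : 0 ≤ s) (hr : 0 ≤ r) :
    HasSum (fun i => F b x (i + k) (s + r) ω - F b x (i + k) s ω)
      (Y b x k (s + r) ω - Y b x k s ω - b k * r) := by
  rw [Y_eq hω k (by positivity), Y_eq hω k hs]
  have h1 := ((summable_nat_add_iff k).mpr (summable_F hω (by positivity : 0 ≤ s + r))).hasSum
  have h2 := ((summable_nat_add_iff k).mpr (summable_F hω hs)).hasSum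
  convert! h1.sub h2 using 1
  ring

/-- almost every sample point is good -/
lemma ae_G0 (hp : Par b x) : ∀ᵐ ω ∂(Pr b x), ω ∈ G0 b x := by
  have h1 : ∀ n : ℕ, ∀ᵐ ω ∂(Pr b x), ∀ᶠ j in atTop,
      ω ∉ {ω | ∃ r ∈ Set.Icc (0:ℝ) (n + 1), (1 / 2 : ℝ) ^ j < |F b x j (0 + r) ω - F b x j 0 ω|} := by
    intro n
    apply ae_eventually_notMem
    have h2 : ∀ j, Pr b x {ω | ∃ r ∈ Set.Icc (0:ℝ) (n + 1),
        (1 / 2 : ℝ) ^ j < |F b x j (0 + r) ω - F b x j 0 ω|} ≤
        ENNReal.ofReal (256 * ((n:ℝ) + 1) ^ 2 * (1 / 2) ^ j) := by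
      intro j
      have h3 : (1 / 2 : ℝ) ^ j ≤ n + 1 := by
        have : (1 / 2 : ℝ) ^ j ≤ 1 := pow_le_one₀ (by norm_num) (by norm_num)
        have : (0:ℝ) ≤ n := Nat.cast_nonneg n
        linarith
      refine (F_sup hp j le_rfl (by positivity) h3).trans (ENNReal.ofReal_le_ofReal ?_)
      have hx : ∀ j, x (j + 1) ≤ (1 / 16) ^ j := by
        intro j
        induction j with
        | zero => simpa using hp.xone 1
        | succ j ih =>
          have := hp.xdec (j + 1)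
          rw [pow_succ]
          linarith
      rw [div_le_iff₀ (by positivity)]
      calc 256 * ((n:ℝ) + 1) ^ 2 * x (j + 1) ≤ 256 * ((n:ℝ) + 1) ^ 2 * (1 / 16) ^ j :=
            mul_le_mul_of_nonneg_left (hx j) (by positivity)
        _ = 256 * ((n:ℝ) + 1) ^ 2 * (1 / 2) ^ j * ((1 / 2) ^ j) ^ 3 := by
            rw [← pow_mul, mul_comm j 3, pow_mul]
            rw [mul_assoc, mul_assoc, mul_assoc, ← mul_pow]
            norm_num
    refine ne_top_of_le_ne_top ?_ (ENNReal.tsum_le_tsum h2)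
    rw [← ENNReal.ofReal_tsum_of_nonneg (fun j => by positivity)
      ((summable_geometric_of_lt_one (by norm_num) (by norm_num)).mul_left _)]
    exact ENNReal.ofReal_ne_top
  rw [← ae_all_iff] at h1
  filter_upwards [h1] with ω hω n
  obtain ⟨J, hJ⟩ := eventually_atTop.mp (hω n)
  refine ⟨J, fun j hj q hq0 hqn => ?_⟩
  have h2 := hJ j hj
  simp only [not_exists, not_and, not_lt, zero_add, F_zero, sub_zero] at h2
  exact h2 q ⟨by exact_mod_cast hq0, by linarith⟩

/-- maximal inequality for `Y k` -/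
lemma Y_sup (hp : Par b x) (k : ℕ) {s R l : ℝ} (hs : 0 ≤ s) (hl : 0 < l) (hR : l ≤ R) :
    Pr b x {ω | ω ∈ G0 b x ∧ ∃ r ∈ Set.Icc 0 R,
        l < |Y b x k (s + r) ω - Y b x k s ω - b k * r|} ≤
      ENNReal.ofReal (4096 * R ^ 2 * x (k + 1) / l ^ 3) := by
  have hRpos : 0 < R := hl.trans_le hR
  have hsub : {ω | ω ∈ G0 b x ∧ ∃ r ∈ Set.Icc 0 R,
        l < |Y b x k (s + r) ω - Y b x k s ω - b k * r|} ⊆
      ⋃ i : ℕ, {ω | ∃ r ∈ Set.Icc 0 R, l * (1 / 2) ^ (i + 1) <
        |F b x (i + k) (s + r) ω - F b x (i + k) s ω|} := by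
    rintro ω ⟨hG, r, hr, hlt⟩
    by_contra hcon
    simp only [Set.mem_iUnion, Set.mem_ofPred_eq, not_exists, not_and, not_lt] at hcon
    have h1 : HasSum (fun i : ℕ => l * (1 / 2 : ℝ) ^ (i + 1)) l := by
      have := (hasSum_geometric_two' l)
      convert! this using 1
      ext i
      rw [pow_succ]
      simp only [one_div, inv_pow]
      ring
    have h2 := (Y_sub hG k hs hr.1).tsum_eq
    have h3 : ‖∑' i, (F b x (i + k) (s + r) ω - F b x (i + k) s ω)‖ ≤ l :=
      tsum_of_norm_bounded h1 (fun i => hcon i r hr)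
    rw [h2, Real.norm_eq_abs] at h3
    exact absurd hlt (not_lt.mpr h3)
  have hx : ∀ i, x (i + k + 1) ≤ (1 / 16) ^ i * x (k + 1) := by
    intro i
    induction i with
    | zero => simp
    | succ i ih =>
      have := hp.xdec (i + k + 1)
      rw [show i + 1 + k + 1 = i + k + 1 + 1 by ring, pow_succ]
      linarith
  calc Pr b x {ω | ω ∈ G0 b x ∧ ∃ r ∈ Set.Icc 0 R,
        l < |Y b x k (s + r) ω - Y b x k s ω - b k * r|}
      ≤ ∑' i : ℕ, Pr b x {ω | ∃ r ∈ Set.Icc 0 R, l * (1 / 2) ^ (i + 1) <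
        |F b x (i + k) (s + r) ω - F b x (i + k) s ω|} :=
        (measure_mono hsub).trans (measure_iUnion_le _)
    _ ≤ ∑' i : ℕ, ENNReal.ofReal (2048 * R ^ 2 * x (k + 1) / l ^ 3 * (1 / 2) ^ i) := by
        apply ENNReal.tsum_le_tsum
        intro i
        have h1 : l * (1 / 2) ^ (i + 1) ≤ R := by
          have : (1 / 2 : ℝ) ^ (i + 1) ≤ 1 := pow_le_one₀ (by norm_num) (by norm_num)
          nlinarith
        refine (F_sup hp (i + k) hs (by positivity) h1).trans (ENNReal.ofReal_le_ofReal ?_)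
        calc 256 * R ^ 2 * x (i + k + 1) / (l * (1 / 2) ^ (i + 1)) ^ 3
            ≤ 256 * R ^ 2 * ((1 / 16) ^ i * x (k + 1)) / (l * (1 / 2) ^ (i + 1)) ^ 3 := by
              apply div_le_div_of_nonneg_right _ (by positivity)
              exact mul_le_mul_of_nonneg_left (hx i) (by positivity)
          _ = 2048 * R ^ 2 * x (k + 1) / l ^ 3 * (1 / 2) ^ i := by
              have e1 : (1 / 16 : ℝ) ^ i = ((1 / 2) ^ i) ^ 4 := by
                rw [← pow_mul, mul_comm i 4, pow_mul]; norm_num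
              rw [e1, pow_succ]
              have : ((1:ℝ) / 2) ^ i ≠ 0 := by positivity
              field_simp
              ring
    _ = ENNReal.ofReal (4096 * R ^ 2 * x (k + 1) / l ^ 3) := by
        have hx1 := hp.xpos (k + 1)
        rw [← ENNReal.ofReal_tsum_of_nonneg (fun j => by positivity)
          ((summable_geometric_of_lt_one (by norm_num) (by norm_num)).mul_left _), tsum_mul_left,
          tsum_geometric_two]
        congr 1
        ring

/-- the increments of `Y k` over long times are close to their mean -/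
lemma Y_long (hp : Par b x) (k : ℕ) {s ρ κ : ℝ} (hs : 0 ≤ s) (hρ : 0 < ρ) (hκ : 0 < κ)
    (hκ1 : κ ≤ 1) :
    Pr b x {ω | ω ∈ G0 b x ∧ ∃ r, ρ ≤ r ∧
        κ * b k * r < |Y b x k (s + r) ω - Y b x k s ω - b k * r|} ≤
      ENNReal.ofReal (32768 * x (k + 1) / (κ ^ 3 * b k ^ 3 * ρ)) := by
  have hb := hp.bpos k
  have hb1 := hp.bone k
  have hx1 := hp.xpos (k + 1)
  have hsub : {ω | ω ∈ G0 b x ∧ ∃ r, ρ ≤ r ∧
        κ * b k * r < |Y b x k (s + r) ω - Y b x k s ω - b k * r|} ⊆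
      ⋃ i : ℕ, {ω | ω ∈ G0 b x ∧ ∃ r ∈ Set.Icc 0 (2 ^ (i + 1) * ρ), κ * b k * (2 ^ i * ρ) <
        |Y b x k (s + r) ω - Y b x k s ω - b k * r|} := by
    rintro ω ⟨hG, r, hr, hlt⟩
    simp only [Set.mem_iUnion, Set.mem_ofPred_eq]
    obtain ⟨i, hi1, hi2⟩ := exists_nat_pow_near (x := r / ρ) (y := 2) (by rwa [one_le_div hρ])
      (by norm_num)
    rw [le_div_iff₀ hρ] at hi1
    rw [div_lt_iff₀ hρ] at hi2
    refine ⟨i, hG, r, ⟨hρ.le.trans hr, hi2.le⟩, lt_of_le_of_lt ?_ hlt⟩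
    exact mul_le_mul_of_nonneg_left hi1 (by positivity)
  calc Pr b x {ω | ω ∈ G0 b x ∧ ∃ r, ρ ≤ r ∧
        κ * b k * r < |Y b x k (s + r) ω - Y b x k s ω - b k * r|}
      ≤ ∑' i : ℕ, Pr b x {ω | ω ∈ G0 b x ∧ ∃ r ∈ Set.Icc 0 (2 ^ (i + 1) * ρ),
        κ * b k * (2 ^ i * ρ) < |Y b x k (s + r) ω - Y b x k s ω - b k * r|} :=
        (measure_mono hsub).trans (measure_iUnion_le _)
    _ ≤ ∑' i : ℕ, ENNReal.ofReal (16384 * x (k + 1) / (κ ^ 3 * b k ^ 3 * ρ) * (1 / 2) ^ i) := by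
        apply ENNReal.tsum_le_tsum
        intro i
        have h2 : (0:ℝ) < 2 ^ i * ρ := by positivity
        have h1 : κ * b k * (2 ^ i * ρ) ≤ 2 ^ (i + 1) * ρ := by
          rw [pow_succ]
          have : κ * b k ≤ 1 := mul_le_one₀ hκ1 hb.le hb1
          nlinarith
        refine (Y_sup hp k hs (by positivity) h1).trans (ENNReal.ofReal_le_ofReal (le_of_eq ?_))
        rw [pow_succ, one_div, inv_pow]
        have : ((2:ℝ)) ^ i ≠ 0 := by positivity
        field_simp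
        ring
    _ = ENNReal.ofReal (32768 * x (k + 1) / (κ ^ 3 * b k ^ 3 * ρ)) := by
        rw [← ENNReal.ofReal_tsum_of_nonneg (fun j => by positivity)
          ((summable_geometric_of_lt_one (by norm_num) (by norm_num)).mul_left _), tsum_mul_left,
          tsum_geometric_two]
        congr 1
        ring

end Pool.Agent.Lib.MP_ee1e43_pr
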