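import Pool.Agent.Lib.MP_ee1e43_pr.Law

/-!
# The process
-/

namespace Pool.Agent.Lib.MP_ee1e43_pr

open MeasureTheory ProbabilityTheory Filter Topology
open scoped NNReal ENNReal

lemma grid_bound {N : ℝ → ℝ} (hN : Monotone N) {m h l : ℝ} {n : ℕ} (hm : 0 ≤ m) (hh : 0 < h)
    (hmh : m * h ≤ l) (H : ∀ i : ℕ, i ≤ n → |N (i * h) - N 0 - m * (i * h)| ≤ l) {r : ℝ}
    (h0 : 0 ≤ r) (hr : r ≤ n * h) : |N r - N 0 - m * r| ≤ 2 * l := by
  have hi1 : ((⌊r / h⌋₊ : ℕ) : ℝ) * h ≤ r := by
    have := Nat.floor_le (div_nonneg h0 hh.le)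
    rwa [le_div_iff₀ hh] at this
  have hi2 : r < ((⌊r / h⌋₊ : ℕ) : ℝ) * h + h := by
    have := Nat.lt_floor_add_one (r / h)
    rw [div_lt_iff₀ hh] at this
    linarith
  have hj1 : r ≤ ((⌈r / h⌉₊ : ℕ) : ℝ) * h := by
    have := Nat.le_ceil (r / h)
    rwa [div_le_iff₀ hh] at this
  have hj2 : ((⌈r / h⌉₊ : ℕ) : ℝ) * h < r + h := by
    have := Nat.ceil_lt_add_one (div_nonneg h0 hh.le)
    have h2 := mul_lt_mul_of_pos_right this hh
    rw [add_mul, div_mul_cancel₀ _ hh.ne'] at h2
    linarith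
  have hjn : ⌈r / h⌉₊ ≤ n := by
    rw [Nat.ceil_le, div_le_iff₀ hh]
    exact hr
  have hin : ⌊r / h⌋₊ ≤ n := (Nat.floor_le_ceil _).trans hjn
  have e1 := H _ hin
  have e2 := H _ hjn
  have e3 := hN hi1
  have e4 := hN hj1
  rw [abs_le] at e1 e2 ⊢
  have e5 : m * r ≤ m * (((⌊r / h⌋₊ : ℕ) : ℝ) * h + h) := mul_le_mul_of_nonneg_left hi2.le hm
  have e6 : m * (((⌈r / h⌉₊ : ℕ) : ℝ) * h) ≤ m * (r + h) := mul_le_mul_of_nonneg_left hj2.le hm
  constructor
  · nlinarith [e1.1]
  · nlinarith [e2.2]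

/-- the parameters: `b k` is the effective drift at level `k`, `x k` is the period of level `k` -/
structure Par (b x : ℕ → ℝ) : Prop where
  bpos : ∀ k, 0 < b k
  bone : ∀ k, b k ≤ 1
  bmono : ∀ k, b (k + 1) ≤ b k
  xpos : ∀ k, 0 < x k
  xone : ∀ k, x k ≤ 1
  xdec : ∀ k, x (k + 1) ≤ x k / 16

variable (b x : ℕ → ℝ)

/-- the probability space: two clocks for each level -/
abbrev Sp := ℕ × Bool → (ℕ → Blk)

/-- the rates of the clocks -/
noncomputable def rate (c : ℕ × Bool) : ℝ≥0 :=
  (if c.2 then (1 + (b c.1 - b (c.1 + 1))) / (2 * x (c.1 + 1))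
    else (1 - (b c.1 - b (c.1 + 1))) / (2 * x (c.1 + 1))).toNNReal

/-- the probability measure -/
noncomputable def Pr : Measure Sp := Measure.infinitePi (fun c => clk (rate b x c))

instance : IsProbabilityMeasure (Pr b x) := by unfold Pr; infer_instance

/-- number of positive jumps minus number of negative jumps of level `j` -/
noncomputable def S (j : ℕ) (t : ℝ) (ω : Sp) : ℝ := (cnt (ω (j, true)) t : ℝ) - cnt (ω (j, false)) t

/-- compensated contribution of level `j` -/
noncomputable def F (j : ℕ) (t : ℝ) (ω : Sp) : ℝ :=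
  x (j + 1) * S j t ω - (b j - b (j + 1)) * t

variable {b x}

lemma Par.d0 (hp : Par b x) (j : ℕ) : 0 ≤ b j - b (j + 1) := by
  have := hp.bmono j; linarith

lemma Par.d1 (hp : Par b x) (j : ℕ) : b j - b (j + 1) ≤ 1 := by
  have := hp.bone j; have := hp.bpos (j + 1); linarith

lemma rate_true (hp : Par b x) (j : ℕ) :
    ((rate b x (j, true) : ℝ≥0) : ℝ) = (1 + (b j - b (j + 1))) / (2 * x (j + 1)) := by
  unfold rate
  simp only [if_true]
  rw [Real.coe_toNNReal]
  have := hp.d0 j
  have := hp.xpos (j + 1)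
  positivity

lemma rate_false (hp : Par b x) (j : ℕ) :
    ((rate b x (j, false) : ℝ≥0) : ℝ) = (1 - (b j - b (j + 1))) / (2 * x (j + 1)) := by
  unfold rate
  simp only [Bool.false_eq_true, if_false]
  rw [Real.coe_toNNReal]
  have := hp.d1 j
  have := hp.xpos (j + 1)
  apply div_nonneg <;> linarith

lemma rate_le (hp : Par b x) (j : ℕ) (c : Bool) :
    ((rate b x (j, c) : ℝ≥0) : ℝ) ≤ 1 / x (j + 1) := by
  have h0 := hp.d0 j
  have h1 := hp.d1 j
  have h2 := hp.xpos (j + 1)
  cases c
  · rw [rate_false hp, div_le_div_iff₀ (by positivity) h2]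
    nlinarith
  · rw [rate_true hp, div_le_div_iff₀ (by positivity) h2]
    nlinarith

/-- the compensated increments of level `j` in terms of the two clocks -/
lemma F_sub (hp : Par b x) (j : ℕ) (s r : ℝ) (ω : Sp) :
    F b x j (s + r) ω - F b x j s ω =
      x (j + 1) * ((cnt (ω (j, true)) (s + r) : ℝ) - cnt (ω (j, true)) s -
        rate b x (j, true) * r) -
      x (j + 1) * ((cnt (ω (j, false)) (s + r) : ℝ) - cnt (ω (j, false)) s -
        rate b x (j, false) * r) := by
  rw [rate_true hp, rate_false hp]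
  unfold F S
  have h2 := (hp.xpos (j + 1)).ne'
  field_simp
  ring

lemma meas_cheb (j : ℕ) (c : Bool) {s r l : ℝ} (hs : 0 ≤ s) (hr : 0 ≤ r) (hl : 0 < l) :
    Pr b x {ω | l < |(cnt (ω (j, c)) (s + r) : ℝ) - cnt (ω (j, c)) s - rate b x (j, c) * r|} ≤
      ENNReal.ofReal (rate b x (j, c) * r / l ^ 2) := by
  have hE : MeasurableSet {w : ℕ → Blk |
      l < |(cnt w (s + r) : ℝ) - cnt w s - rate b x (j, c) * r|} := by
    apply measurableSet_lt measurable_const
    have h1 : Measurable (fun w : ℕ → Blk => (cnt w (s + r) : ℝ)) :=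
      measurable_from_nat.comp (measurable_cnt (s + r))
    have h2 : Measurable (fun w : ℕ → Blk => (cnt w s : ℝ)) :=
      measurable_from_nat.comp (measurable_cnt s)
    exact ((h1.sub h2).sub measurable_const).abs
  have h1 := (measurePreserving_eval_infinitePi (fun c => clk (rate b x c)) (j, c)).measure_preimage
    hE.nullMeasurableSet
  have h2 := cnt_cheb (rate b x (j, c)) hs hr hl
  rw [← h1] at h2
  exact h2

/-- maximal inequality for level `j` -/
lemma F_sup (hp : Par b x) (j : ℕ) {s R l : ℝ} (hs : 0 ≤ s) (hl : 0 < l) (hR : l ≤ R) :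
    Pr b x {ω | ∃ r ∈ Set.Icc 0 R, l < |F b x j (s + r) ω - F b x j s ω|} ≤
      ENNReal.ofReal (256 * R ^ 2 * x (j + 1) / l ^ 3) := by
  have hy := hp.xpos (j + 1)
  set y := x (j + 1) with hydef
  set l' : ℝ := l / (4 * y) with hl'
  set h : ℝ := l / 4 with hh
  set n : ℕ := ⌈R / h⌉₊ with hn
  have hRpos : 0 < R := hl.trans_le hR
  have hhpos : 0 < h := by positivity
  have hl'pos : 0 < l' := by positivity
  have hRn : R ≤ n * h := by
    have := Nat.le_ceil (R / h)
    rwa [div_le_iff₀ hhpos] at this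
  have hn1 : (n : ℝ) + 1 ≤ 6 * R / l := by
    have h1 := Nat.ceil_lt_add_one (div_nonneg hRpos.le hhpos.le)
    have h2 : R / h = 4 * R / l := by rw [hh]; field_simp
    have h3 : 1 ≤ R / l := by rwa [one_le_div hl]
    have h4 : (n : ℝ) < R / h + 1 := h1
    rw [h2] at h4
    have h5 : 6 * R / l = 4 * R / l + 2 * (R / l) := by ring
    rw [h5]; linarith
  have hn2 : (n : ℝ) * h ≤ 5 / 4 * R := by
    have h1 := Nat.ceil_lt_add_one (div_nonneg hRpos.le hhpos.le)
    have h2 := mul_lt_mul_of_pos_right h1 hhpos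
    rw [add_mul, div_mul_cancel₀ _ hhpos.ne', one_mul] at h2
    have h3 : h ≤ R / 4 := by rw [hh]; linarith
    have : (n : ℝ) * h < R + h := h2
    linarith
  -- the bad event
  have hsub : {ω : Sp | ∃ r ∈ Set.Icc 0 R, l < |F b x j (s + r) ω - F b x j s ω|} ⊆
      ⋃ c : Bool, ⋃ i ∈ Finset.range (n + 1), {ω : Sp | l' < |(cnt (ω (j, c)) (s + i * h) : ℝ) -
        cnt (ω (j, c)) s - rate b x (j, c) * (i * h)|} := by
    intro ω hω
    by_contra hcon
    simp only [Set.mem_iUnion, not_exists, Set.mem_ofPred_eq, not_lt, exists_prop, not_and,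
      Finset.mem_range] at hcon
    obtain ⟨r, hr, hlt⟩ := hω
    have key : ∀ c : Bool, |(cnt (ω (j, c)) (s + r) : ℝ) - cnt (ω (j, c)) s -
        rate b x (j, c) * r| ≤ 2 * l' := by
      intro c
      have hmono : Monotone (fun r => (cnt (ω (j, c)) (s + r) : ℝ)) := by
        intro r1 r2 h12
        have := cnt_mono (ω (j, c)) (by linarith : s + r1 ≤ s + r2)
        simp only
        exact_mod_cast this
      have h1 := grid_bound (N := fun r => (cnt (ω (j, c)) (s + r) : ℝ)) hmono
        (m := rate b x (j, c)) (h := h) (l := l') (n := n) (NNReal.coe_nonneg _) hhpos ?_ ?_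
        hr.1 (hr.2.trans hRn)
      · simpa using h1
      · calc ((rate b x (j, c) : ℝ≥0) : ℝ) * h ≤ 1 / y * h :=
            mul_le_mul_of_nonneg_right (rate_le hp j c) hhpos.le
          _ = l' := by rw [hl', hh]; field_simp
      · intro i hi
        have := hcon c i (by omega)
        simpa using this
    have h1 := key true
    have h2 := key false
    rw [F_sub hp] at hlt
    have h3 : |y * ((cnt (ω (j, true)) (s + r) : ℝ) - cnt (ω (j, true)) s -
        rate b x (j, true) * r) -
      y * ((cnt (ω (j, false)) (s + r) : ℝ) - cnt (ω (j, false)) s -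
        rate b x (j, false) * r)| ≤ y * (2 * l') + y * (2 * l') := by
      refine (abs_sub _ _).trans ?_
      rw [abs_mul, abs_mul, abs_of_pos hy]
      exact add_le_add (mul_le_mul_of_nonneg_left h1 hy.le) (mul_le_mul_of_nonneg_left h2 hy.le)
    have h4 : y * (2 * l') + y * (2 * l') = l := by rw [hl']; field_simp; ring
    rw [h4] at h3
    exact absurd hlt (not_lt.mpr h3)
  have hterm : ∀ c : Bool, ∀ i ∈ Finset.range (n + 1),
      Pr b x {ω : Sp | l' < |(cnt (ω (j, c)) (s + i * h) : ℝ) -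
        cnt (ω (j, c)) s - rate b x (j, c) * (i * h)|} ≤
        ENNReal.ofReal (20 * R * y / l ^ 2) := by
    intro c i hi
    refine (meas_cheb j c hs (by positivity) hl'pos).trans (ENNReal.ofReal_le_ofReal ?_)
    have hin : (i : ℝ) ≤ n := by
      rw [Finset.mem_range] at hi
      exact_mod_cast Nat.lt_succ_iff.mp hi
    have h1 : ((rate b x (j, c) : ℝ≥0) : ℝ) * (i * h) ≤ 1 / y * (5 / 4 * R) := by
      apply mul_le_mul (rate_le hp j c) _ (by positivity) (by positivity)
      exact (mul_le_mul_of_nonneg_right hin hhpos.le).trans hn2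
    calc ((rate b x (j, c) : ℝ≥0) : ℝ) * (i * h) / l' ^ 2 ≤ 1 / y * (5 / 4 * R) / l' ^ 2 :=
          div_le_div_of_nonneg_right h1 (by positivity)
      _ = 20 * R * y / l ^ 2 := by rw [hl']; field_simp; ring
  calc Pr b x {ω | ∃ r ∈ Set.Icc 0 R, l < |F b x j (s + r) ω - F b x j s ω|}
      ≤ Pr b x (⋃ c : Bool, ⋃ i ∈ Finset.range (n + 1),
          {ω : Sp | l' < |(cnt (ω (j, c)) (s + i * h) : ℝ) -
            cnt (ω (j, c)) s - rate b x (j, c) * (i * h)|}) := measure_mono hsub
    _ ≤ ∑' c : Bool, Pr b x (⋃ i ∈ Finset.range (n + 1),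
          {ω : Sp | l' < |(cnt (ω (j, c)) (s + i * h) : ℝ) -
            cnt (ω (j, c)) s - rate b x (j, c) * (i * h)|}) := measure_iUnion_le _
    _ ≤ ∑' c : Bool, ∑ i ∈ Finset.range (n + 1), ENNReal.ofReal (20 * R * y / l ^ 2) := by
        apply ENNReal.tsum_le_tsum
        intro c
        refine (measure_biUnion_finset_le _ _).trans ?_
        exact Finset.sum_le_sum (hterm c)
    _ = ENNReal.ofReal (2 * ((n + 1) * (20 * R * y / l ^ 2))) := by
        rw [tsum_bool, Finset.sum_const, Finset.card_range, nsmul_eq_mul, ← two_mul,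
          ENNReal.ofReal_mul (by norm_num), ENNReal.ofReal_mul (by positivity)]
        congr 2
        · norm_num
        · rw [ENNReal.ofReal_add (by positivity) (by norm_num)]
          simp
    _ ≤ ENNReal.ofReal (256 * R ^ 2 * y / l ^ 3) := by
        apply ENNReal.ofReal_le_ofReal
        calc 2 * (((n:ℝ) + 1) * (20 * R * y / l ^ 2)) ≤
            2 * ((6 * R / l) * (20 * R * y / l ^ 2)) := by
              apply mul_le_mul_of_nonneg_left _ (by norm_num)
              exact mul_le_mul_of_nonneg_right hn1 (by positivity)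
          _ = 240 * R ^ 2 * y / l ^ 3 := by field_simp; ring
          _ ≤ 256 * R ^ 2 * y / l ^ 3 := by
              apply div_le_div_of_nonneg_right _ (by positivity)
              have : 0 ≤ R ^ 2 * y := by positivity
              nlinarith

end Pool.Agent.Lib.MP_ee1e43_pr
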