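import Pool.Agent.Lib.MP_ee1e43_pr.Levy

/-!
# The closed set and its thinness
-/

namespace Pool.Agent.Lib.MP_ee1e43_pr

open MeasureTheory ProbabilityTheory Filter Topology
open scoped NNReal ENNReal

/-- small parameters with a finite sum -/
noncomputable def eta (k : ℕ) : ℝ := (1 / 2) ^ (k + 6)

lemma eta_pos (k : ℕ) : 0 < eta k := by unfold eta; positivity

lemma eta_succ (k : ℕ) : eta (k + 1) = eta k / 2 := by
  unfold eta; rw [show k + 1 + 6 = (k + 6) + 1 by ring, pow_succ]; ring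

lemma eta_le (k : ℕ) : eta k ≤ 1 / 64 := by
  unfold eta
  rw [pow_add]
  have : (1 / 2 : ℝ) ^ k ≤ 1 := pow_le_one₀ (by norm_num) (by norm_num)
  nlinarith

/-- relative precision -/
noncomputable def kap (k : ℕ) : ℝ := eta (k + 1) / 4

variable (b x : ℕ → ℝ)

/-- the duration of one turn at level `k` -/
noncomputable def T (k : ℕ) : ℝ := x k / b k

/-- the distance travelled at level `k` during one turn at level `k + 1` -/
noncomputable def ell (k : ℕ) : ℝ := b k * T b x (k + 1)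

/-- length of the windows of level `k` -/
noncomputable def wid (k : ℕ) : ℝ := (1 - eta (k + 1)) * ell b x k

/-- `y` lies in the window of level `k` with shift `θ` -/
def Win (k : ℕ) (θ y : ℝ) : Prop := ∃ z : ℤ, 0 ≤ y - θ - z * x k ∧ y - θ - z * x k ≤ wid b x k

/-- the closed set with the shifts `θ` -/
def setA (θ : ℕ → ℝ) : Set ℝ := {y | ∀ k, Win b x k (θ k) y}

/-- further conditions on the parameters -/
structure Par2 : Prop extends Par b x where
  dvd : ∀ k, ∃ m : ℕ, x k = m * x (k + 1)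
  thin : ∀ k, 65536 * b (k + 1) / (kap k ^ 3 * b k ^ 3) ≤ (1 / 2) ^ k
  ell_le : ∀ k, ell b x k ≤ eta k * x k / 8
  T_le : ∀ k, T b x k ≤ (1 / 2) ^ k

variable {b x}

lemma T_pos (hp : Par b x) (k : ℕ) : 0 < T b x k := div_pos (hp.xpos k) (hp.bpos k)

lemma ell_pos (hp : Par b x) (k : ℕ) : 0 < ell b x k := mul_pos (hp.bpos k) (T_pos hp _)

lemma wid_pos (hp : Par b x) (k : ℕ) : 0 < wid b x k := by
  unfold wid
  have := eta_le (k + 1)
  exact mul_pos (by linarith) (ell_pos hp k)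

lemma wid_le_ell (hp : Par b x) (k : ℕ) : wid b x k ≤ ell b x k := by
  unfold wid
  have := eta_pos (k + 1)
  have := ell_pos hp k
  nlinarith

lemma bT (hp : Par b x) (k : ℕ) : b k * T b x k = x k := by
  unfold T
  have := (hp.bpos k).ne'
  field_simp

/-- windows are closed -/
lemma isClosed_Win (hp : Par b x) (k : ℕ) (θ : ℝ) : IsClosed {y | Win b x k θ y} := by
  have hx := hp.xpos k
  have h1 : {y | Win b x k θ y} = ⋃ z : ℤ, Set.Icc (θ + z * x k) (θ + z * x k + wid b x k) := by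
    ext y
    simp only [Win, Set.mem_ofPred_eq, Set.mem_iUnion, Set.mem_Icc]
    constructor
    · rintro ⟨z, h1, h2⟩; exact ⟨z, by linarith, by linarith⟩
    · rintro ⟨z, h1, h2⟩; exact ⟨z, by linarith, by linarith⟩
  rw [h1]
  apply LocallyFinite.isClosed_iUnion _ (fun z => isClosed_Icc)
  intro y
  refine ⟨Set.Ioo (y - 1) (y + 1), Ioo_mem_nhds (by linarith) (by linarith), ?_⟩
  apply Set.Finite.subset (Set.finite_Icc ⌊(y - 1 - θ - wid b x k) / x k⌋
    ⌈(y + 1 - θ) / x k⌉)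
  rintro z ⟨v, hv1, hv2⟩
  rw [Set.mem_Icc] at hv1 ⊢
  rw [Set.mem_Ioo] at hv2
  constructor
  · have : (y - 1 - θ - wid b x k) / x k ≤ z := by
      rw [div_le_iff₀ hx]; linarith [hv1.2, hv2.1]
    exact Int.floor_le_iff.mpr (lt_of_le_of_lt this (by linarith))
  · have : (z : ℝ) ≤ (y + 1 - θ) / x k := by
      rw [le_div_iff₀ hx]; linarith [hv1.1, hv2.2]
    exact_mod_cast this.trans (Int.le_ceil _)

lemma isClosed_setA (hp : Par b x) (θ : ℕ → ℝ) : IsClosed (setA b x θ) := by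
  have : setA b x θ = ⋂ k, {y | Win b x k (θ k) y} := by
    ext y; simp [setA]
  rw [this]
  exact isClosed_iInter fun k => isClosed_Win hp k (θ k)

/-- two points of the set differ by almost a multiple of `x k` -/
lemma setA_diff {θ : ℕ → ℝ} {y v : ℝ} (h1 : y ∈ setA b x θ) (h2 : y + v ∈ setA b x θ) (k : ℕ) :
    ∃ z : ℤ, |v - z * x k| ≤ wid b x k := by
  obtain ⟨z1, h3, h4⟩ := h1 k
  obtain ⟨z2, h5, h6⟩ := h2 k
  refine ⟨z2 - z1, ?_⟩
  push_cast
  rw [abs_le]
  constructor <;> linarith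

lemma x_mul (hp : Par2 b x) {i k : ℕ} (hik : i ≤ k) : ∃ m : ℤ, x i = m * x k := by
  induction k, hik using Nat.le_induction with
  | base => exact ⟨1, by simp⟩
  | succ k _ ih =>
    obtain ⟨m, hm⟩ := ih
    obtain ⟨m', hm'⟩ := hp.dvd k
    refine ⟨m * m', ?_⟩
    rw [hm, hm']
    push_cast
    ring

/-- the process and `Y k` differ by a multiple of `x k` -/
lemma X_sub_Y (hp : Par2 b x) (k : ℕ) (t : ℝ) (ω : Sp) :
    ∃ z : ℤ, X b x t ω = Y b x k t ω + z * x k := by
  unfold Y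
  have : ∃ z : ℤ, ∑ j ∈ Finset.range k, x (j + 1) * S j t ω = z * x k := by
    have h : ∀ n ≤ k, ∃ z : ℤ, ∑ j ∈ Finset.range n, x (j + 1) * S j t ω = z * x k := by
      intro n
      induction n with
      | zero => intro _; exact ⟨0, by simp⟩
      | succ n ih =>
        intro hn
        obtain ⟨z, hz⟩ := ih (by omega)
        obtain ⟨m, hm⟩ := x_mul hp hn
        rw [Finset.sum_range_succ, hz]
        refine ⟨z + m * ((cnt (ω (n, true)) t : ℤ) - cnt (ω (n, false)) t), ?_⟩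
        unfold S
        rw [hm]
        push_cast
        ring
    exact h k le_rfl
  obtain ⟨z, hz⟩ := this
  exact ⟨z, by rw [hz]; ring⟩

lemma Y_zero (k : ℕ) (ω : Sp) : Y b x k 0 ω = 0 := by
  unfold Y
  rw [X_zero, Finset.sum_eq_zero]
  · simp
  · intro j _
    rw [S_zero j le_rfl]; simp

/-- exceptional event of level `k` -/
def badT (b x : ℕ → ℝ) (k : ℕ) : Set Sp :=
  {ω | ω ∈ G0 b x ∧ ∃ r, T b x (k + 1) / 2 ≤ r ∧
    kap k * b k * r < |Y b x k (0 + r) ω - Y b x k 0 ω - b k * r|}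

lemma kap_pos (k : ℕ) : 0 < kap k := by unfold kap; have := eta_pos (k + 1); positivity

lemma kap_le (k : ℕ) : kap k ≤ 1 / 256 := by
  unfold kap
  have := eta_le (k + 1)
  linarith

lemma measure_badT (hp : Par2 b x) (k : ℕ) :
    Pr b x (badT b x k) ≤ ENNReal.ofReal ((1 / 2) ^ k) := by
  have hT := T_pos hp.toPar (k + 1)
  refine (Y_long hp.toPar k le_rfl (by positivity : 0 < T b x (k + 1) / 2) (kap_pos k)
    ((kap_le k).trans (by norm_num))).trans (ENNReal.ofReal_le_ofReal ?_)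
  refine le_trans (le_of_eq ?_) (hp.thin k)
  have h1 := bT hp.toPar (k + 1)
  have h2 := (hp.bpos k).ne'
  have h3 := (kap_pos k).ne'
  have h4 := (hp.bpos (k + 1)).ne'
  rw [← h1]
  field_simp
  ring

/-- end of the time range of level `k` -/
noncomputable def Rk (b x : ℕ → ℝ) (k : ℕ) : ℝ := (1 - eta k / 2) * T b x k

/-- in the time range of level `k`, the phase of level `k` has left the window and has not come
back -/
lemma exit (hp : Par2 b x) {k : ℕ} {ω : Sp} (hG : ω ∈ G0 b x) (hb : ω ∉ badT b x k) {t : ℝ}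
    (h1 : Rk b x (k + 1) ≤ t) (h2 : t ≤ Rk b x k) :
    wid b x k < Y b x k t ω ∧ Y b x k t ω < x k - wid b x k := by
  have hT := T_pos hp.toPar (k + 1)
  have hT0 := T_pos hp.toPar k
  have he := eta_pos (k + 1)
  have he0 := eta_pos k
  have hes := eta_succ k
  have hel := eta_le k
  have hbk := hp.bpos k
  have hx := hp.xpos k
  have hl := ell_pos hp.toPar k
  have hr : T b x (k + 1) / 2 ≤ t := by
    refine le_trans ?_ h1
    unfold Rk
    nlinarith
  have h3 : |Y b x k t ω - b k * t| ≤ kap k * b k * t := by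
    by_contra hcon
    rw [not_le] at hcon
    apply hb
    refine ⟨hG, t, hr, ?_⟩
    rw [zero_add, Y_zero, sub_zero]
    exact hcon
  rw [abs_le] at h3
  have hk : kap k = eta k / 8 := by unfold kap; rw [hes]; ring
  have hk1 := kap_pos k
  constructor
  · have h4 : (1 - kap k) * (b k * Rk b x (k + 1)) ≤ Y b x k t ω := by
      have : b k * Rk b x (k + 1) ≤ b k * t := mul_le_mul_of_nonneg_left h1 hbk.le
      have h5 : (1 - kap k) * (b k * Rk b x (k + 1)) ≤ (1 - kap k) * (b k * t) :=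
        mul_le_mul_of_nonneg_left this (by rw [hk]; linarith)
      nlinarith [h3.1]
    refine lt_of_lt_of_le ?_ h4
    have h6 : b k * Rk b x (k + 1) = (1 - eta (k + 1) / 2) * ell b x k := by
      unfold Rk ell; ring
    rw [h6]
    unfold wid
    have h7 : (1 - eta (k + 1)) < (1 - kap k) * (1 - eta (k + 1) / 2) := by
      unfold kap
      nlinarith
    nlinarith
  · have h4 : Y b x k t ω ≤ (1 + kap k) * (b k * Rk b x k) := by
      have : b k * t ≤ b k * Rk b x k := mul_le_mul_of_nonneg_left h2 hbk.le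
      nlinarith [h3.2]
    refine lt_of_le_of_lt h4 ?_
    have h6 : b k * Rk b x k = (1 - eta k / 2) * x k := by
      unfold Rk
      rw [← bT hp.toPar k]; ring
    rw [h6]
    have h7 := wid_le_ell hp.toPar k
    have h8 := hp.ell_le k
    have h9 : (1 + kap k) * (1 - eta k / 2) ≤ 1 - 3 * eta k / 8 := by
      rw [hk]; nlinarith
    have h10 : (1 + kap k) * ((1 - eta k / 2) * x k) ≤ (1 - 3 * eta k / 8) * x k := by
      rw [← mul_assoc]; exact mul_le_mul_of_nonneg_right h9 hx.le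
    nlinarith [mul_pos he0 hx]

lemma exit_not_mem (hp : Par2 b x) {θ : ℕ → ℝ} {y : ℝ} (hy : y ∈ setA b x θ) {k : ℕ} {ω : Sp}
    (hG : ω ∈ G0 b x) (hb : ω ∉ badT b x k) {t : ℝ}
    (h1 : Rk b x (k + 1) ≤ t) (h2 : t ≤ Rk b x k) : y + X b x t ω ∉ setA b x θ := by
  intro hmem
  obtain ⟨z, hz⟩ := setA_diff hy hmem k
  obtain ⟨z', hz'⟩ := X_sub_Y hp k t ω
  obtain ⟨h3, h4⟩ := exit hp hG hb h1 h2
  have hw := wid_pos hp.toPar k
  have hx := hp.xpos k
  rw [hz'] at hz
  rw [abs_le] at hz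
  have h5 : (z - z' : ℤ) ≤ 0 ∨ 1 ≤ (z - z' : ℤ) := by omega
  rcases h5 with h5 | h5
  · have h6 : ((z - z' : ℤ) : ℝ) ≤ 0 := by exact_mod_cast h5
    push_cast at h6
    nlinarith [hz.2]
  · have h6 : (1:ℝ) ≤ ((z - z' : ℤ) : ℝ) := by exact_mod_cast h5
    push_cast at h6
    nlinarith [hz.1]

lemma Rk_pos (hp : Par b x) (k : ℕ) : 0 < Rk b x k := by
  unfold Rk
  have := eta_le k
  have := eta_pos k
  exact mul_pos (by linarith) (T_pos hp k)

lemma exists_level (hp : Par2 b x) (k0 : ℕ) {t : ℝ} (ht : 0 < t) (ht2 : t < Rk b x k0) :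
    ∃ k ≥ k0, Rk b x (k + 1) ≤ t ∧ t ≤ Rk b x k := by
  classical
  have h1 : ∃ n, k0 ≤ n ∧ Rk b x n ≤ t := by
    obtain ⟨n, hn⟩ := exists_pow_lt_of_lt_one ht (by norm_num : (1/2 : ℝ) < 1)
    refine ⟨max k0 n, le_max_left _ _, ?_⟩
    have h2 : Rk b x (max k0 n) ≤ T b x (max k0 n) := by
      unfold Rk
      have := eta_pos (max k0 n)
      have := T_pos hp.toPar (max k0 n)
      nlinarith
    have h3 : (1 / 2 : ℝ) ^ (max k0 n) ≤ (1 / 2) ^ n :=
      pow_le_pow_of_le_one (by norm_num) (by norm_num) (le_max_right _ _)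
    exact h2.trans ((hp.T_le _).trans (h3.trans hn.le))
  set n0 := Nat.find h1 with hn0
  have h2 := Nat.find_spec h1
  rw [← hn0] at h2
  have h3 : n0 ≠ k0 := by
    intro h
    rw [h] at h2
    linarith [h2.2]
  obtain ⟨m, hm⟩ : ∃ m, n0 = m + 1 := ⟨n0 - 1, by omega⟩
  refine ⟨m, by omega, by rw [← hm]; exact h2.2, ?_⟩
  have h4 := Nat.find_min h1 (m := m) (by omega)
  push Not at h4
  exact (h4 (by omega)).le

/-- the set is thin -/
lemma thin_setA (hp : Par2 b x) (θ : ℕ → ℝ) :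
    Thin (Pr b x) (fun (t : ℝ≥0) ω => X b x t ω) (setA b x θ) := by
  intro y
  have hev : ∀ᵐ ω ∂(Pr b x), ∀ᶠ k in atTop, ω ∉ badT b x k := by
    apply ae_eventually_notMem
    refine ne_top_of_le_ne_top ?_ (ENNReal.tsum_le_tsum (measure_badT hp))
    rw [← ENNReal.ofReal_tsum_of_nonneg (fun j => by positivity)
      (summable_geometric_of_lt_one (by norm_num) (by norm_num))]
    exact ENNReal.ofReal_ne_top
  have key : ∀ᵐ ω ∂(Pr b x), hit (fun (t : ℝ≥0) ω => X b x t ω) (setA b x θ) y ω ≠ 0 := by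
    filter_upwards [hev, ae_G0 hp.toPar] with ω h1 hG
    have hpos : ∃ ε : ℝ, 0 < ε ∧ ∀ t : ℝ, 0 < t → t < ε → y + X b x t ω ∉ setA b x θ := by
      by_cases hy : y ∈ setA b x θ
      · obtain ⟨k0, hk0⟩ := eventually_atTop.mp h1
        refine ⟨Rk b x k0, Rk_pos hp.toPar k0, fun t ht0 ht1 => ?_⟩
        obtain ⟨k, hk, h2, h3⟩ := exists_level hp k0 ht0 ht1
        exact exit_not_mem hp hy hG (hk0 k hk) h2 h3
      · have h2 : (setA b x θ)ᶜ ∈ 𝓝 (y + X b x 0 ω) := by
          rw [X_zero, add_zero]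
          exact (isClosed_setA hp.toPar θ).isOpen_compl.mem_nhds hy
        have h3 : Tendsto (fun t => y + X b x t ω) (𝓝[≥] (0:ℝ)) (𝓝 (y + X b x 0 ω)) :=
          (X_right hp.toPar ω le_rfl).const_add y
        have h4 := h3.eventually h2
        rw [eventually_nhdsWithin_iff] at h4
        obtain ⟨ε, hε, h5⟩ := Metric.eventually_nhds_iff.mp h4
        refine ⟨ε, hε, fun t ht0 ht1 => ?_⟩
        exact h5 (y := t) (by rw [Real.dist_eq, sub_zero, abs_of_pos ht0]; exact ht1) ht0.le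
    obtain ⟨ε, hε, h2⟩ := hpos
    have h3 : ENNReal.ofReal ε ≤ hit (fun (t : ℝ≥0) ω => X b x t ω) (setA b x θ) y ω := by
      unfold hit
      refine le_iInf fun t => le_iInf fun ht => ?_
      by_contra hcon
      rw [not_le] at hcon
      have h4 : (t : ℝ) < ε := by
        have := (ENNReal.lt_ofReal_iff_toReal_lt ENNReal.coe_ne_top).mp hcon
        simpa using this
      exact h2 t (by exact_mod_cast ht.1) h4 ht.2
    intro h4
    rw [h4] at h3
    simp only [nonpos_iff_eq_zero, ENNReal.ofReal_eq_zero] at h3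
    linarith
  exact measure_eq_zero_iff_ae_notMem.mpr key

end Pool.Agent.Lib.MP_ee1e43_pr
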